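import Pool.Agent.GSX.Cub

set_option autoImplicit false
set_option maxRecDepth 100000

noncomputable section

namespace Pool.Agent.GSK4

/-- the cubic -/
def X : GSX.Cub ℤ where
  a := ![![0, 0, 2], ![-2, -1, 0], ![0, -1, -2], ![-4, -1, -4], ![0, 2, 0], ![8, -4, -8]]
  b := ![![-2, -2, 2], ![0, -1, 2], ![0, 3, -2], ![0, 3, -2], ![0, -6, 4], ![0, -12, 0]]


end Pool.Agent.GSK4
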