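import Pool.Agent.GSW.DTree

set_option autoImplicit false
set_option maxRecDepth 100000

noncomputable section

namespace Pool.Agent.GSK4

open Pool.Agent.GSW

/-- the datum -/
def D : GSR.Dat E where
  B := !![E.c (-24), E.c 16; E.c (-16), E.c 16]
  N := !![E.c (-7), E.c 6; E.c (-2), E.c 2]
  E := !![E.c 25, E.c (-22); E.c 2, E.c 2]
  γ := ![E.c 17, E.c 8, E.c 1, E.c 0]
  δ := ![E.c (-1), E.c 32, E.c (-1), E.c 8]
  t := !![E.c 0, E.c (-230), E.c 106, E.c (-108), E.c 182, E.c 6; E.c 0, E.c 0, E.c 54, E.c 0,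
    E.c 74, E.c 28; E.c 0, E.c 0, E.c 0, E.c (-12), E.c 22, E.c (-10); E.c 0, E.c 0, E.c 0, E.c 0,
    E.c (-14), E.c 22; E.c 0, E.c 0, E.c 0, E.c 0, E.c 0, E.c 0; E.c 0, E.c 0, E.c 0, E.c 0,
    E.c 0, E.c 0]

/-- the datum with its parameters -/
def T : DT where
  D := D
  n := ![E.c 4, E.c 3 + E.c 2 * E.t + E.c 1 * E.s]
  dl := E.c 1 + E.c (-1) * E.s


end Pool.Agent.GSK4
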