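import Pool.Agent.GSK4.Tab2

set_option autoImplicit false
set_option maxRecDepth 100000

noncomputable section

namespace Pool.Agent.GSK4

open Pool.Agent.GSW

/-- parameters -/
def p2 : Pm := ⟨1, 1, 2 ^ 29, 7, 2 ^ 630⟩

theorem y0 : lnk p2 (tq T.tp 0) (nf WQ 0) = true := by decide +kernel

theorem y1 : lnk p2 (tq T.tp 1) (nf WQ 1) = true := by decide +kernel

theorem y2 : lnk p2 (tq T.tp 2) (nf WQ 2) = true := by decide +kernel

theorem y3 : lnk p2 (tq T.tp 3) (nf WQ 3) = true := by decide +kernel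

theorem y4 : lnk p2 (tq T.tp 4) (nf WQ 4) = true := by decide +kernel

theorem y5 : lnk p2 (tq T.tp 5) (nf WQ 5) = true := by decide +kernel

theorem y6 : lnk p2 (tq T.tp 6) (nf WQ 6) = true := by decide +kernel

theorem y7 : lnk p2 (tq T.tp 7) (nf WQ 7) = true := by decide +kernel


end Pool.Agent.GSK4
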