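import Pool.Agent.GSW.Fin
import Pool.Agent.GSK4.Tab2

set_option autoImplicit false
set_option maxRecDepth 100000

noncomputable section

namespace Pool.Agent.GSK4

open Pool.Agent Pool.Agent.GSW GSX Pool.Agent.GSR

instance fp : Fact (Nat.Prime 1000003) := ⟨by norm_num⟩

theorem hu : rtChk 1000003 1 (1) = true := by decide +kernel

/-- residues of the datum -/
def Dn1 : Dat ℕ := ⟨!![999979, 16; 999987, 16], !![999996, 6; 1000001, 2], !![25, 999981; 2, 2],
  ![17, 8, 1, 0], ![1000002, 32, 1000002, 8],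
    !![0, 999773, 106, 999895, 182, 6; 0, 0, 54, 0, 74, 28; 0, 0, 0, 999991, 22, 999993; 0, 0, 0,
      0, 999989, 22; 0, 0, 0, 0, 0, 0; 0, 0, 0, 0, 0, 0]⟩

theorem hd1 : datChk 1000003 1 D Dn1 = true := by decide +kernel

/-- residues of the datum -/
def Dn2 : Dat ℕ := ⟨!![999979, 16; 999987, 16], !![999996, 6; 1000001, 2], !![25, 999981; 2, 2],
  ![17, 8, 1, 0], ![1000002, 32, 1000002, 8],
    !![0, 999773, 106, 999895, 182, 6; 0, 0, 54, 0, 74, 28; 0, 0, 0, 999991, 22, 999993; 0, 0, 0,
      0, 999989, 22; 0, 0, 0, 0, 0, 0; 0, 0, 0, 0, 0, 0]⟩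

theorem hd2 : datChk 1000003 1000002 D Dn2 = true := by decide +kernel

/-- intermediate values -/
def g1 : GSE.GZ.GC (ZMod 1000003) where
  c := ![0, 1]
  s := 430483
  m := 1
  n := 2
  z := !![32, 999975; 4, 0]
  w1 := !![339754, 105125; 888734, 112293]
  w2 := !![676633, 880542; 113317, 887710]
  h1 := ![![0, 0, 0, 0, 569520, 999747], ![511620, 544042, 0, 0, 858272, 0], ![0, 0, 511620,
    242390, 419274, 0]]
  h2 := ![![0, 0, 0, 0, 430483, 999747], ![391237, 290963, 0, 0, 517984, 0], ![0, 0, 391237,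
    495469, 825910, 0]]
  M := !![406636, 283028, 666180; 603508, 0, 616563; 432327, 210481, 0]
  N := !![813272, 627801, 283167; 654068, 696896, 740061; 484924, 730803, 61602]
  y := ![550929, 913422, 777091]
  p := ![511620, 544042, 23237, 484780, 266334, 999747]
  q := ![410925, 208073, 839492, 345610, 721447, 962602]
  f1 := 429844
  f2 := 299996
  v := ![641060, 607447, 768564, 842669, 163531, 77002]
  e0 := ![731337, 306883, 256851, 9897, 192342, 0]
  e1 := ![961639, 89800, 542540, 513124, 0, 0]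
  e2 := ![916885, 475255, 863480, 420444, 51562, 0]
  mm := 345887
  p0 := 947898
  p1 := 910332
  M0 := 744253
  M1 := 820701

theorem ok1 : g1.Ok (Dn1.map (fun a : ℕ => (a : ZMod 1000003))) := by
  constructor <;> decide +kernel

/-- intermediate values -/
def g2 : GSE.GZ.GC (ZMod 1000003) where
  c := ![0, 1]
  s := 569520
  m := 1
  n := 2
  z := !![32, 999975; 4, 0]
  w1 := !![676633, 880542; 113317, 887710]
  w2 := !![339754, 105125; 888734, 112293]
  h1 := ![![0, 0, 0, 0, 430483, 999747], ![391237, 290963, 0, 0, 517984, 0], ![0, 0, 391237,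
    495469, 825910, 0]]
  h2 := ![![0, 0, 0, 0, 569520, 999747], ![511620, 544042, 0, 0, 858272, 0], ![0, 0, 511620,
    242390, 419274, 0]]
  M := !![593367, 396495, 567676; 716975, 0, 789522; 333823, 383440, 0]
  N := !![186731, 345935, 515079; 372202, 303107, 269200; 716836, 259942, 938401]
  y := ![295629, 495086, 787710]
  p := ![391237, 290963, 782474, 990938, 600281, 999747]
  q := ![139435, 769574, 981182, 454104, 631368, 319204]
  f1 := 989911
  f2 := 274533
  v := ![254025, 785092, 266175, 324273, 151171, 814710]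
  e0 := ![244620, 110563, 684378, 425178, 558898, 0]
  e1 := ![541451, 382881, 926701, 620564, 0, 0]
  e2 := ![472988, 108029, 541340, 292647, 490729, 0]
  mm := 659469
  p0 := 159343
  p1 := 198081
  M0 := 558233
  M1 := 636120

theorem ok2 : g2.Ok (Dn1.map (fun a : ℕ => (a : ZMod 1000003))) := by
  constructor <;> decide +kernel

/-- intermediate values -/
def g3 : GSE.GZ.GC (ZMod 1000003) where
  c := ![0, 1]
  s := 430483
  m := 1
  n := 2
  z := !![32, 999975; 4, 0]
  w1 := !![339754, 105125; 888734, 112293]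
  w2 := !![676633, 880542; 113317, 887710]
  h1 := ![![0, 0, 0, 0, 569520, 999747], ![511620, 544042, 0, 0, 858272, 0], ![0, 0, 511620,
    242390, 419274, 0]]
  h2 := ![![0, 0, 0, 0, 430483, 999747], ![391237, 290963, 0, 0, 517984, 0], ![0, 0, 391237,
    495469, 825910, 0]]
  M := !![406636, 283028, 666180; 603508, 0, 616563; 432327, 210481, 0]
  N := !![813272, 627801, 283167; 654068, 696896, 740061; 484924, 730803, 61602]
  y := ![550929, 913422, 777091]
  p := ![511620, 544042, 23237, 484780, 266334, 999747]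
  q := ![410925, 208073, 839492, 345610, 721447, 962602]
  f1 := 429844
  f2 := 299996
  v := ![641060, 607447, 768564, 842669, 163531, 77002]
  e0 := ![731337, 306883, 256851, 9897, 192342, 0]
  e1 := ![961639, 89800, 542540, 513124, 0, 0]
  e2 := ![916885, 475255, 863480, 420444, 51562, 0]
  mm := 345887
  p0 := 947898
  p1 := 910332
  M0 := 744253
  M1 := 820701

theorem ok3 : g3.Ok (Dn2.map (fun a : ℕ => (a : ZMod 1000003))) := by
  constructor <;> decide +kernel

/-- intermediate values -/
def g4 : GSE.GZ.GC (ZMod 1000003) where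
  c := ![0, 1]
  s := 569520
  m := 1
  n := 2
  z := !![32, 999975; 4, 0]
  w1 := !![676633, 880542; 113317, 887710]
  w2 := !![339754, 105125; 888734, 112293]
  h1 := ![![0, 0, 0, 0, 430483, 999747], ![391237, 290963, 0, 0, 517984, 0], ![0, 0, 391237,
    495469, 825910, 0]]
  h2 := ![![0, 0, 0, 0, 569520, 999747], ![511620, 544042, 0, 0, 858272, 0], ![0, 0, 511620,
    242390, 419274, 0]]
  M := !![593367, 396495, 567676; 716975, 0, 789522; 333823, 383440, 0]
  N := !![186731, 345935, 515079; 372202, 303107, 269200; 716836, 259942, 938401]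
  y := ![295629, 495086, 787710]
  p := ![391237, 290963, 782474, 990938, 600281, 999747]
  q := ![139435, 769574, 981182, 454104, 631368, 319204]
  f1 := 989911
  f2 := 274533
  v := ![254025, 785092, 266175, 324273, 151171, 814710]
  e0 := ![244620, 110563, 684378, 425178, 558898, 0]
  e1 := ![541451, 382881, 926701, 620564, 0, 0]
  e2 := ![472988, 108029, 541340, 292647, 490729, 0]
  mm := 659469
  p0 := 159343
  p1 := 198081
  M0 := 558233
  M1 := 636120

theorem ok4 : g4.Ok (Dn2.map (fun a : ℕ => (a : ZMod 1000003))) := by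
  constructor <;> decide +kernel

theorem red1 : Red 1000003 D 0 1 1 2 ((1 : ℕ) : ZMod 1000003) g1.s :=
  red_of hd1 ok1 ok2 (by decide +kernel) (by decide +kernel) (by decide +kernel)
    (by decide +kernel) (by decide +kernel) (by decide +kernel) (by decide +kernel)

theorem red2 : Red 1000003 D 0 1 1 2 ((1000003 - 1 : ℕ) : ZMod 1000003) g3.s :=
  red_of hd2 ok3 ok4 (by decide +kernel) (by decide +kernel) (by decide +kernel)
    (by decide +kernel) (by decide +kernel) (by decide +kernel) (by decide +kernel)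

theorem good {z : ℂ} (hz : z * z = ((1 : ℤ) : ℂ)) : GSN.Good (dr T.D z) :=
  goodW hu red1 red2 hz

theorem li {z : ℂ} (hz : z * z = ((1 : ℤ) : ℂ)) :
    LinearIndependent ℂ ![(dr T.D z).B, (dr T.D z).E, 1, (dr T.D z).N] := by
  refine li_of ?_
  have h := evC_ne (p := 1000003) (a := 0) (b := 0) hu (e := liE T.D) (by decide +kernel)
    (by decide +kernel) hz
  rwa [Nat.cast_zero] at h

/-- parameters of the test -/
def p3 : Pm := ⟨1, 1, 2 ^ 11, 10, 2 ^ 123⟩

/-- coefficients -/
def lS : List (E × ℕ × ℕ) := [(E.c 2, 1, 0), (E.c 0, 0, 1), (E.c (-8), 0, 0)]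

/-- coefficients -/
def lT : List (E × ℕ × ℕ) := [(E.c (-4), 1, 0), (E.c 4, 0, 1), (E.c 4, 0, 0)]

/-- coefficients -/
def lQ : List (E × ℕ × ℕ) := [(E.c 2, 1, 0), (E.c 0, 0, 1), (E.c 0, 0, 0)]

theorem dlne {z : ℂ} (hz : z * z = ((1 : ℤ) : ℂ)) : E.ev GSX.sK GSX.tK (zK z) T.dl ≠ 0 :=
  ev_ne (p := 1000003) (a := 0) (b := 0) hu (e := T.dl) (by decide +kernel)
    (by decide +kernel) hz

theorem top {z : ℂ} (hz : z * z = ((1 : ℤ) : ℂ)) :
    IntermediateField.adjoin ℂ (Set.range (par z T)) = ⊤ := by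
  refine top_of_hom (p := p3) hz (dl := T.dl) (n0 := T.n 0) (n1 := T.n 1) (m := 1) (S := lS)
    (T := lT) (Q := lQ) (by decide +kernel) (by decide +kernel) (by decide +kernel)
    (by decide +kernel) (by decide +kernel) ?_ (dlne hz) ?_ ?_
  · exact ev_ne (p := 1000003) (a := 0) (b := 0) hu (by decide +kernel)
      (by decide +kernel) hz
  · rw [par, mul_div_cancel₀ _ (dlne hz)]
  · rw [par, mul_div_cancel₀ _ (dlne hz)]

/-- the inverse -/
def L10 : Fin 8 → Fin 8 → ℕ := ![![0, 1000002, 666676, 166665, 333336, 666667, 750002, 97],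
  ![208334, 0, 69446, 90278, 847225, 583335, 833336, 666694], ![0, 0, 0, 0, 0, 550376, 449627, 0],
  ![0, 0, 0, 0, 0, 483210, 449627, 0], ![0, 0, 241605, 0, 0, 0, 0, 0], ![0, 0, 0, 758398, 241605,
  0, 0, 0], ![0, 0, 0, 275188, 241605, 0, 0, 0], ![0, 0, 0, 0, 0, 0, 0, 241605]]

/-- the inverse -/
def L11 : Fin 8 → Fin 8 → ℕ := ![![0, 1000002, 666676, 166665, 333336, 666667, 750002, 97],
  ![208334, 0, 69446, 90278, 847225, 583335, 833336, 666694], ![0, 0, 0, 0, 0, 550376, 449627, 0],
  ![0, 0, 0, 0, 0, 483210, 449627, 0], ![0, 0, 241605, 0, 0, 0, 0, 0], ![0, 0, 0, 758398, 241605,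
  0, 0, 0], ![0, 0, 0, 275188, 241605, 0, 0, 0], ![0, 0, 0, 0, 0, 0, 0, 241605]]

theorem iv10 : invChk 1000003 1 3 1 (jf J1) L10 = true := by decide +kernel

theorem iv11 : invChk 1000003 1 3 (1000003 - 1) (jf J1) L11 = true := by decide +kernel

theorem jd1 {z : ℂ} (hz : z * z = ((1 : ℤ) : ℂ)) :
    IsUnit (jm GSX.sK GSX.tK (zK z) (jf J1)).det := jdet hu iv10 iv11 hz

/-- the inverse -/
def L20 : Fin 8 → Fin 8 → ℕ := ![![840562, 321382, 146003, 398990, 620562, 299563, 698053, 50915],
  ![130095, 660826, 747415, 885845, 143647, 425290, 638557, 682878], ![416369, 592433, 514867,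
  716678, 474736, 937724, 436266, 743400], ![665473, 455597, 109509, 16610, 994995, 325238, 75254,
  545441], ![461038, 729870, 863668, 424372, 176099, 874844, 514625, 265342], ![739813, 109175,
  827226, 379091, 126436, 293821, 659190, 714078], ![368113, 506345, 674548, 74219, 313369,
  753174, 909124, 111462], ![763941, 849036, 332195, 145406, 338430, 387035, 722191, 635477]]

/-- the inverse -/
def L21 : Fin 8 → Fin 8 → ℕ := ![![840562, 321382, 146003, 398990, 620562, 299563, 698053, 50915],
  ![130095, 660826, 747415, 885845, 143647, 425290, 638557, 682878], ![416369, 592433, 514867,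
  716678, 474736, 937724, 436266, 743400], ![665473, 455597, 109509, 16610, 994995, 325238, 75254,
  545441], ![461038, 729870, 863668, 424372, 176099, 874844, 514625, 265342], ![739813, 109175,
  827226, 379091, 126436, 293821, 659190, 714078], ![368113, 506345, 674548, 74219, 313369,
  753174, 909124, 111462], ![763941, 849036, 332195, 145406, 338430, 387035, 722191, 635477]]

theorem iv20 : invChk 1000003 2 1 1 (dg8 T.tp.m (jf J2)) L20 = true := by decide +kernel

theorem iv21 : invChk 1000003 2 1 (1000003 - 1) (dg8 T.tp.m (jf J2)) L21 = true := by decide +kernel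

theorem jd2 {z : ℂ} (hz : z * z = ((1 : ℤ) : ℂ)) :
    IsUnit (jm GSX.sK GSX.tK (zK z) (dg8 T.tp.m (jf J2))).det := jdet hu iv20 iv21 hz


end Pool.Agent.GSK4
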