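import Pool.Agent.GSE.Short
import Pool.Agent.GSK4.Final

set_option autoImplicit false
set_option maxRecDepth 100000

noncomputable section

namespace Pool.Agent.GSK4F

open Pool.Agent MvPolynomial

/-- the cubic form -/
def F : MvPolynomial (Fin 6) ℂ :=
  X 0 ^ 2 * X 5 + 4 * X 0 * X 1 * X 5 + X 0 * X 2 ^ 2 + 3 * X 0 * X 2 * X 5 + X 0 * X 3 ^ 2
    + 2 * X 0 * X 3 * X 4 + 8 * X 0 * X 3 * X 5 - X 0 * X 4 ^ 2 + 6 * X 0 * X 4 * X 5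
    + 8 * X 0 * X 5 ^ 2 + 4 * X 1 ^ 2 * X 4 + 8 * X 1 ^ 2 * X 5 + 4 * X 1 * X 2 * X 3
    + 6 * X 1 * X 2 * X 4 + 6 * X 1 * X 2 * X 5 + 6 * X 1 * X 3 * X 4 + 16 * X 1 * X 3 * X 5
    - 2 * X 1 * X 4 ^ 2 + 12 * X 1 * X 4 * X 5 + 24 * X 1 * X 5 ^ 2 + 2 * X 2 ^ 2 * X 3
    + 6 * X 2 ^ 2 * X 4 - 3 * X 2 ^ 2 * X 5 + 5 * X 2 * X 3 * X 4 + 16 * X 2 * X 3 * X 5
    - 3 * X 2 * X 4 ^ 2 + 6 * X 2 * X 4 * X 5 + 20 * X 2 * X 5 ^ 2 + 12 * X 3 ^ 2 * X 4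
    + 16 * X 3 ^ 2 * X 5 + 2 * X 3 * X 4 ^ 2 + 28 * X 3 * X 4 * X 5 + 40 * X 3 * X 5 ^ 2
    - 2 * X 4 ^ 3 + 12 * X 4 ^ 2 * X 5 + 20 * X 4 * X 5 ^ 2 + 8 * X 5 ^ 3

/-- the substitution -/
def M : Matrix (Fin 6) (Fin 6) ℤ :=
  !![4, 0, 0, 0, 0, 0; 0, -1, -2, 0, 0, 0; 0, 2, 0, 0, 0, 0; 0, 0, 0, 0, 2, 0; 0, 0, 0, -2, 0, 0; 0, 0, 0, 0, 0, 4]

/-- the inverse substitution -/
def N : Matrix (Fin 6) (Fin 6) ℤ :=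
  !![1, 0, 0, 0, 0, 0; 0, 0, 2, 0, 0, 0; 0, -2, -1, 0, 0, 0; 0, 0, 0, 0, -2, 0; 0, 0, 0, 2, 0, 0; 0, 0, 0, 0, 0, 1]

theorem hMN : M * N = (4 : ℤ) • (1 : Matrix (Fin 6) (Fin 6) ℤ) := by decide +kernel

theorem eqF : C (((1 : ℤ) : ℤ) : ℂ) * bind₁ (GSE.lsub (M.map (Int.castRingHom ℂ))) F =
    C (((8 : ℤ) : ℤ) : ℂ) * (Pool.Agent.GSK4.X.map (Int.castRingHom ℂ)).F := by
  rw [← GSE.map_FZ]
  simp only [F, GSE.FZ, GSE.linZ, GSE.lsub, M, Pool.Agent.GSK4.X, Fin.sum_univ_six, Matrix.map_apply, Matrix.of_apply,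
    Matrix.cons_val, map_add, map_sub, map_neg, map_mul, map_pow, bind₁_X_right, map_X, map_C,
    map_ofNat, map_one, map_zero, Int.coe_castRingHom, Int.cast_ofNat, Int.cast_neg, Int.cast_one,
    Int.cast_zero]
  ring

theorem result : P28.PSmooth F ∧ P28.Rational F :=
  GSE.short M N (by decide) (by decide) (by decide) hMN eqF Pool.Agent.GSK4.smooth Pool.Agent.GSK4.rational

end Pool.Agent.GSK4F
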