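import Pool.Agent.GSE.Fin
import Pool.Agent.GSK4.Cubic

set_option autoImplicit false
set_option maxRecDepth 100000

noncomputable section

namespace Pool.Agent.GSK4

open Pool.Agent GSX

/-- certificate for the chart 0 -/
def c0 : Fin 6 → GSE.NP 0 :=
  (![0, 0, 0, 0, 0, 1] : Fin 6 → ℤ)

/-- certificate for the chart 1 -/
def c1 : Fin 6 → GSE.NP 1 :=
  (![[4], [], [], [], [], []] : Fin 6 → List (ℤ))

/-- certificate for the chart 2 -/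
def c2 : Fin 6 → GSE.NP 2 :=
  (![[[3]], [], [], [[5]], [[6]], []] : Fin 6 → List (List (ℤ)))

/-- certificate for the chart 3 -/
def c3 : Fin 6 → GSE.NP 3 :=
  (![[[[5,5]]], [[[],[1]]], [[[5],[2]],[[1]]], [[[5]]], [[[3]]],
    []] : Fin 6 → List (List (List (ℤ))))

/-- certificate for the chart 4 -/
def c4 : Fin 6 → GSE.NP 4 :=
  (![[[[[4,3,1],[0,4]],[[0,5]],[[3]]],[[[0,6],[4]]]], [[[[5,3,5],[5,4],[3]],[[3,4]],[[3]]],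
    [[[1]]]], [[[[0,3,4],[3,2],[5]],[[4],[3]],[[6]]],[[[5,2],[4]]]], [[[[5,3],[0,2],[2]],[[4]]],
    [[[1,6]]]], [[[[1,4],[3,5]],[[4,5],[6]]]], [[[[1],[2,1],
    [6]]]]] : Fin 6 → List (List (List (List (ℤ)))))

/-- certificate for the chart 5 -/
def c5 : Fin 6 → GSE.NP 5 :=
  (![[[[[[2,0,5],[4,4,5,6],[4,2,1],[6,5],[3]],[[1,3,1],[0,4,2],[3],[3]],[[5,3],[3,5],[2]],[[3],
    [1]],[[6]]],[[[1,3,3],[3,2,3],[1,1],[1]],[[5,3,4],[6,4],[1]],[[3,1],[1]]],[[[6,1],[4],[3]],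
    [[6,3],[6]],[[6]]],[[[0,3],[3]],[[3]]]],[[[[2,2],[1]]]]], [[[[[6,2,1,0,3],[3,3,3,5],[6,1,5]],
    [[4,2,4,4],[5,2,3],[3,6],[4]],[[5,0,4],[],[5]],[[2,2],[4]]],[[[1,6,0,3],[1,0,6],[2,1]],[[2,2,
    4],[2,3]],[[6,6],[5]],[[2]]],[[[0,4,5],[2,2],[2]],[[5,1],[5]],[[2]]]],[[[[2,2,4],[0,5,1],[1,
    1]],[[3,1],[4,2],[4]],[[4],[3]],[[3]]],[[[6,2,3],[1,5],[1]],[[2,2]]],[[[0,3],[3]],[[3]]]]],
    [[[[[2,0,4,4,1],[3,6,6,2],[4,1],[2,2]],[[6,6,6,5],[1,1,5],[3,6],[6]],[[1,3],[1,4],[2]],[[0,1],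
    [5]]],[[[1,0,4,4],[6,1,1],[4,3],[4]],[[5,5,1],[2,2],[5]],[[2,5]],[[1]]],[[[6,4,3],[3,5],[1]],
    [[4,1],[6]],[[6]]],[[[0,3],[3]],[[3]]]],[[[[1,2,3,6],[2,4,6],[2,4],[4]],[[3,6,4],[3,6],
    [1]]]]], [[[[[2,0,3,4],[1,1,2,2],[4,2,4],[3,5],[4]],[[4,1,4],[0,4,4],[],[6]],[[3,3],[0,5],
    [6]],[[2],[5]]],[[[0,6,3,3],[1,0,1],[0,2],[1]],[[6,3,4],[5,4],[2]],[[5,3],[2]],[[3]]],[[[0,5,
    3],[1,5],[5]],[[0,5]]]],[[[[5,5],[6]]]]], [[[[[4,4,0,6],[5,3,3,1],[6,6,5],[],[5]],[[3,2,0,3],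
    [2,5,4],[3,3],[3]],[[5,5,4],[2],[3]],[[2,4],[3]],[[2]]],[[[1,2,4,3],[4,1,3],[3,6],[1]],[[3,6,
    6]]]]], [[[[[3,4,2,4],[2,6,5,2],[6,2],[5,6],[4]],[[4,5,2],[2,5,2],[5]],[[4,5],[1,
    4]]]]]] : Fin 6 → List (List (List (List (List (ℤ))))))

/-- the certificates -/
def c : (n : ℕ) → Fin 6 → GSE.NP n
  | 0 => c0
  | 1 => c1
  | 2 => c2
  | 3 => c3
  | 4 => c4
  | 5 => c5
  | _ + 6 => fun _ => GSE.NP.zero _

theorem smooth : P28.PSmooth (X.map (Int.castRingHom ℂ)).F := by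
  refine GSE.psmooth_of_chk X 7 (by norm_num) c fun n hn => ?_
  interval_cases n <;> decide +kernel

theorem irr : Irreducible (X.map (Int.castRingHom ℂ)).F := by
  have h : (X.map (Int.castRingHom ℂ)).F.IsHomogeneous 3 := by
    rw [← GSE.map_FZ]
    exact (GSE.hom_FZ X).map _
  exact GSE.psmooth_irr h (by norm_num) smooth

theorem nondeg : (X.map (Int.castRingHom ℂ)).NonDeg :=
  GSE.nondeg_of (by decide +kernel) (by decide +kernel) (by decide +kernel)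

theorem nsq : ¬ IsSquare (X.map (Int.castRingHom ℂ)).D2 :=
  GSE.d2_nsq X 1 (by decide +kernel)

end Pool.Agent.GSK4
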