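import Pool.Agent.GSW.Fin
import Pool.Agent.GSK4.Cubic

set_option autoImplicit false
set_option maxRecDepth 100000

noncomputable section

namespace Pool.Agent.GSK4

open Pool.Agent.GSW

/-- the nine equations in the new coordinates -/
def NN : List (List (List Tb)) := [[[[], [], [], [], [], [], [], [], [([1], [])]], [[], [], [], [], [], [], [], [], []], [[([1],
[])], [], [], [], [], [], [], [], []], [[], [], [], [], [([1], [])], [], [], [], []], [[], [], [],
[], [], [([1], [])], [], [], []], [[], [], [], [], [], [], [([1], [])], [], []], [[], [], [], [],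
[], [], [], [([1], [])], []], [[], [([-2], []), ([-4], []), ([2], [])], [([0, -2], []), ([-2, 2],
[]), ([-2], [])], [([0, 2, 2], []), ([0, -4], []), ([-4], [])], [], [], [], [], [([16, -16, 56],
[]), ([0, 56], []), ([144], [])]]], [[], [[], [], [], [], [], [], [], [], [([-4, -8], []), ([-8],
[]), ([12], [])]], [[], [([-2], []), ([-4], []), ([2], [])], [([0, -2], []), ([-2, 2], []), ([-2],
[])], [([0, 2, 2], []), ([0, -4], []), ([-4], [])], [], [], [], [], [([16, -48, 16], []), ([-32,
-16], []), ([-16], [])]], [[], [], [], [], [], [], [([-2, -2], []), ([2], [])], [([0, -2], []),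
([-4], [])], [([-4, -16, -4], []), ([-8, 12], []), ([12], [])]], [[], [], [], [], [], [], [([-2],
[]), ([2], [])], [([2], []), ([2], [])], [([8, 12], []), ([16, 4], []), ([-24], [])]], [[], [],
[], [], [([-2], []), ([-2], [])], [([0, -2], []), ([-4], [])], [], [], [([12, 4, -8], []), ([24,
20], []), ([-12], [])]], [[], [], [], [], [([-2], []), ([2], [])], [([2, 2], []), ([-2], [])], [],
[], [([-8, -24], []), ([-16, -8], []), ([40], [])]], [[([4, 8], []), ([8], []), ([-12], [])], [],
[], [], [], [], [], [], [([0, 48, 112, 32], []), ([16, 144, 48], []), ([0, 32], []), ([112],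
[])]]], [[], [], [[], [([0, 8], []), ([-24], []), ([-8], [])], [([0, -16], []), ([], []), ([-8],
[])], [([0, -8], []), ([0, -24], []), ([8], [])], [], [], [], [], [([0, -320], []), ([192, -192],
[]), ([128], [])]], [[], [([-2, -2], []), ([-2], []), ([2], [])], [([0, -2], []), ([-2], [])],
[([], []), ([0, -2], []), ([-2], [])], [], [], [([8], []), ([8], [])], [([0, -16], []), ([8],
[])], [([16, -48], []), ([0, 32], []), ([-32], [])]], [[], [([2], []), ([6], [])], [([0, 2], []),
([2], []), ([4], [])], [([0, -2], []), ([0, 6], []), ([4], [])], [], [], [([-16], []), ([-8],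
[])], [([0, -8], []), ([8], [])], [([-16, 48], []), ([16, 48], []), ([-32], [])]], [[], [([2, -4],
[]), ([6], []), ([4], [])], [([0, 2], []), ([2], []), ([4], [])], [([0, -4], []), ([0, 6], []),
([6], [])], [([0, 8], []), ([-8], [])], [([0, -16], []), ([8], [])], [], [], [([-16, 64], []),
([64, 144], []), ([-48], [])]], [[], [([-4], []), ([-12], [])], [([0, -4], []), ([-4], []), ([-8],
[])], [([], []), ([0, -12], []), ([-4], [])], [([-16], []), ([-8], [])], [([-8], []), ([-8], [])],
[], [], [([32, -128], []), ([64, -96], []), ([96], [])]], [[], [], [], [], [([0, -64, -32], []),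
([-128, -192], []), ([64], [])], [([-64, -192, -96], []), ([96, 96], []), ([-32], [])], [([-128,
-192, -64], []), ([-384, -320], [])], [([64, 160, 96], []), ([0, -352], []), ([320], [])], [([0,
128, 128, -128], []), ([384, 192, 192], []), ([-704, 128], []), ([-704], [])]]], [[], [], [], [[],
[([0, 1], []), ([], []), ([-1], [])], [], [], [], [], [], [([0, -2], []), ([-2], [])], [([0, -4],
[]), ([-4, 4], []), ([4], [])]], [[], [], [([0, 1], []), ([], []), ([-1], [])], [], [], [], [([],
[]), ([-2], [])], [([2, 4], []), ([4], [])], [([4, 12], []), ([4, -12], []), ([-8], [])]], [[([0,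
-1], [])], [], [], [], [([-2, -2], [])], [([0, -2], []), ([-2], [])], [([4], []), ([-4], [])],
[([0, 2], []), ([6], [])], [([8, 16], []), ([8, -4], []), ([-4], [])]], [[([], []), ([1], [])],
[], [], [], [([-2], []), ([2], [])], [], [([], []), ([8], [])], [([0, -4], []), ([-4], [])], [([0,
-16], []), ([0, 24], []), ([8], [])]], [[([0, 4, 4], []), ([4, 8], []), ([4], [])], [([-4, -4,
-8], []), ([-8, 12], []), ([-12], []), ([-24], [])], [([0, -4, 4], []), ([-4, 8, -8], []), ([-4,
-16], []), ([-24], [])], [([0, 0, -8, -8], []), ([0, -12, -12], []), ([-4, -8], []), ([4], [])],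
[([16, -32, 8], []), ([48, 40], [])], [([0, 48, 32], []), ([16, -32], []), ([48], [])], [([0, 16,
16], []), ([-16], []), ([16], [])], [([0, 8, 24], []), ([24, 16], []), ([-24], [])], [([0, -80,
-80, -32], []), ([-48, -560, -464], []), ([-64, 416], []), ([-208], [])]]], [[], [], [], [], [[],
[], [], [([0, 1], []), ([], []), ([-1], [])], [], [], [([2], [])], [([-2], []), ([-4], [])],
[([-4, -4], []), ([-8], []), ([16], [])]], [[([], []), ([1], [])], [], [], [], [([2], []), ([4],
[])], [([0, 2], []), ([4], [])], [([2], []), ([4], [])], [([-2, 4], []), ([-4], [])], [([-12],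
[]), ([-28, -24], []), ([16], [])]], [[([-1], [])], [], [], [], [([2], [])], [([-2], []), ([4],
[])], [([-4], [])], [([4], []), ([8], [])], [([8, 16], []), ([8], []), ([-64], [])]], [[([-4,
-12], []), ([-8, -4], []), ([4], [])], [([0, -8], []), ([-8, 8], []), ([-16], []), ([16], [])],
[([], []), ([0, -8], []), ([-8, 24], []), ([-16], [])], [([0, 4, 12], []), ([0, 44, 24], []),
([-4, -36], []), ([-52], [])], [([-32, -16], []), ([-32, 16], []), ([-32], [])], [([0, -16, 24],
[]), ([-80, -40], []), ([-16], [])], [([], []), ([], []), ([32], [])], [([0, 0, -16], []), ([0,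
-48], []), ([-48], [])], [([64, 112, -16], []), ([112, -352, 64], []), ([688, 448], [])]]], [[],
[], [], [], [], [[], [([], []), ([], []), ([-1], [])], [([], []), ([0, -1], [])], [([0, 0, -1],
[])], [([2, -4], []), ([4], [])], [([0, 2], []), ([6], [])], [], [], [([-8, 12], []), ([-20, -24],
[]), ([-8], [])]], [[], [([], []), ([2], [])], [([0, 1], []), ([], []), ([1], [])], [([], []),
([0, 2], [])], [([-2], []), ([-4], [])], [([-4, -4], [])], [], [], [([16, 16], []), ([32, 48],
[]), ([-48], [])]], [[([-4, 0, 8], []), ([-8, -4], []), ([44], [])], [([], []), ([0, 8], []),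
([4], []), ([12], [])], [([0, 0, 4], []), ([0, -4], []), ([0, 16], []), ([8], [])], [([0, -4, -8],
[]), ([0, 4, 20], []), ([4, 12], []), ([-4], [])], [([0, 0, 16], []), ([0, 48], []), ([48], [])],
[([0, 8, 24], []), ([24, 16], []), ([-24], [])], [([0, 16, 48], []), ([32, 64], []), ([160], [])],
[([0, 32, 16], []), ([-16, 48], []), ([-48], [])], [([0, -48, -144, 32], []), ([48, -320, -192],
[]), ([-304, 96], []), ([64], [])]]], [[], [], [], [], [], [], [[], [([-1], [])], [([], []),
([-1], [])], [([], []), ([], []), ([-1], [])], [([-4], [])], [([], []), ([-8], [])], [], [], [([0,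
-16], []), ([16], []), ([64], [])]], [[([4, 4], []), ([-20, -8], [])], [([0, -8], []), ([-4, -8],
[]), ([-12], []), ([8], [])], [([0, 0, -4], []), ([0, -16], []), ([-4, 4], []), ([-4], [])], [([0,
-4, -4], []), ([0, 8], []), ([4, -16], []), ([-12], [])], [([], []), ([], []), ([32], [])], [([0,
-16, -16], []), ([16], []), ([-16], [])], [([-48, -32], []), ([16, -16], []), ([32], [])], [([16,
0, 32], []), ([0, 48], []), ([144], [])], [([-64, -96, 64], []), ([128, 352, 32], []), ([-64,
-64], []), ([-192], [])]]], [[], [], [], [], [], [], [], [[([0, -48, -112, -32], []), ([-16, -144,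
-48], []), ([0, -32], []), ([-112], [])], [([0, -96, -144], []), ([32, -144, -160], []), ([-224,
-64, 80], []), ([-800, 144], []), ([224], [])], [([0, 64, 64, -80], []), ([0, 0, -160, 80], []),
([-32, -592, 64], []), ([-320, 176], []), ([-416], [])], [([0, 32, 128, 144, 80], []), ([0, 224,
272, -16], []), ([-32, 96, -128], []), ([-192, -1216], []), ([-544], [])], [([-128, -64, 64], []),
([-1152, -2048, -320], []), ([-128, 64], []), ([-640], [])], [([-128, -704, -896, -320], []),
([-384, -512], []), ([-2176, -2624], []), ([640], [])], [([-128, -512, -384, -64], []), ([64, 64,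
-128], []), ([128, 320], []), ([-64], [])], [([128, 384, 64, -64], []), ([-64, -320, -320], []),
([-640, -832], []), ([320], [])], [([256, 2176, 2944, 384, 640], []), ([2304, 8832, 5120, 3712],
[]), ([3456, -7296, 896], []), ([24064, 20608], []), ([-7040], [])]]]]

/-- the first matrix -/
def J1 : List (List Tb) := [[[], [([-1], [])], [], [], [], [], [], []], [[([4, 8], []), ([8], []), ([-12], [])], [], [], [],
[], [], [], []], [[([0, 0, 0, 0, 0, -192, -384], []), ([0, 0, 0, -64, -256, -640], []), ([0, 0, 0,
-128, 704, 2496], []), ([0, 0, 256, 1536, 3968], []), ([0, 0, 512, -64, -6336], []), ([0, -320,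
-3328, -9792], []), ([0, -640, -2496, 7872], []), ([128, 3072, 12160], []), ([256, 3328, -4800],
[]), ([-1024, -7616], []), ([-1280, 1152], []), ([1920], [])], [([0, 0, 0, 0, -288, -288, 192],
[]), ([0, 0, 0, -160, -160, 32], []), ([0, 0, 0, 1248, 2592, -960], []), ([0, 0, 640, 1376, -32],
[]), ([0, 0, -1824, -8640, 1728], []), ([0, -800, -3744, -224], []), ([0, 1056, 13536, -1344],
[]), ([320, 4000, 416], []), ([-192, -10080, 384], []), ([-1472, -192], []), ([2880], [])], [],
[], [], [([0, 0, 0, 0, -128, -256], []), ([0, 0, 0, -128, -512], []), ([0, 0, 0, 384, 1664], []),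
([0, 0, 512, 2688], []), ([0, 0, -128, -4224], []), ([0, -640, -5120], []), ([0, -384, 5248], []),
([256, 4224], []), ([256, -3200], []), ([-1280], []), ([768], [])], [([0, 0, 0, 0, 128, 256], []),
([0, 0, 0, 0, 256], []), ([0, 0, 0, -768, -1920], []), ([0, 0, 0, -1536], []), ([0, 0, 1664,
5632], []), ([0, 0, 3328], []), ([0, -1536, -8064], []), ([0, -3072], []), ([512, 5632], []),
([1024], []), ([-1536], [])], []], [[([0, 0, 0, 64, 256, 192, -128], []), ([0, 0, 0, 128, 0,
-640], []), ([0, 0, -256, -1536, -2240, 832], []), ([0, 0, -512, -384, 3968], []), ([0, 320, 3328,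
8320, -2112], []), ([0, 640, 1536, -9600], []), ([-128, -3072, -13632, 2624], []), ([-256, -1920,
11392], []), ([1024, 10304, -1600], []), ([768, -6656], []), ([-2944, 384], []), ([1536], [])],
[([0, 0, 0, 160, 64, -416, -192], []), ([0, 0, 0, 192, 480, 288], []), ([0, 0, -640, -896, 1472,
960], []), ([0, 0, -768, -2112, -1440], []), ([0, 800, 2880, -832, -1728], []), ([0, 960, 3168,
2592], []), ([-320, -3328, -2048, 1344], []), ([-384, -1920, -2016], []), ([1280, 2784, -384],
[]), ([384, 576], []), ([-960], [])], [], [], [], [([0, 0, 0, 128, 384, 256], []), ([0, 0, 0, 256,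
256], []), ([0, 0, -512, -2048, -1664], []), ([0, 0, -1024, -1280], []), ([0, 640, 3968, 4224],
[]), ([0, 1280, 2304], []), ([-256, -3328, -5248], []), ([-512, -1792], []), ([1024, 3200], []),
([512], []), ([-768], [])], [([0, 0, 0, 0, 128, 256], []), ([0, 0, 0, 128, 512], []), ([0, 0, 0,
-384, -1664], []), ([0, 0, -512, -2688], []), ([0, 0, 128, 4224], []), ([0, 640, 5120], []), ([0,
384, -5248], []), ([-256, -4224], []), ([-256, 3200], []), ([1280], []), ([-768], [])], []],
[[([0, 0, 0, 0, 0, -768, -3328, -4096, -1024], []), ([0, 0, 0, 0, -256, -4352, -8960, -2560], []),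
([0, 0, 0, 0, 3328, 13824, 23296, 6656], []), ([0, 0, 0, 1280, 20736, 47104, 15104], []), ([0, 0,
0, -4352, -19456, -49408, -16896], []), ([0, 0, -2304, -34048, -86784, -34560], []), ([0, 0, 768,
15872, 46336, 20992], []), ([0, 1792, 21248, 56576, 38656], []), ([0, 2048, -19200, -14080,
-12800], []), ([-512, -1536, 14336, -21248], []), ([-1024, 19456, -5120, 3072], []), ([-2048,
-33024, 4608], []), ([-7168, 3072], []), ([10752], [])], [([0, 0, 0, 0, 512, 0, -896, 2304], []),
([0, 0, 0, 0, 512, -2432, 3584], []), ([0, 0, 0, -2560, -512, 12928, -14976], []), ([0, 0, 0,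
-2560, 17792, -19840], []), ([0, 0, 4608, 2560, -56448, 38016], []), ([0, 0, 4608, -50048, 41856],
[]), ([0, -3584, -4608, 113024, -47232], []), ([0, -3584, 67712, -42368], []), ([1024, 3584,
-116224, 28800], []), ([1024, -44288, 20608], []), ([-1024, 59904, -6912], []), ([11264, -3840],
[]), ([-12288], [])], [([0, 0, 0, 0, 256, 1024, 1024], []), ([0, 0, 0, 0, 1024, 2048], []), ([0,
0, 0, -1280, -5632, -8192], []), ([0, 0, 0, -5120, -13312], []), ([0, 0, 2304, 11776, 26880], []),
([0, 0, 9216, 33792], []), ([0, -1792, -11776, -46336], []), ([0, -7168, -41984], []), ([512,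
5632, 44288], []), ([2048, 25600], []), ([-1024, -22272], []), ([-6144], []), ([4608], [])], [],
[], [], [], []], [[([0, 0, 0, 0, -128, -896, -1536, -512], []), ([0, 0, 0, -128, -2688, -7040,
-3328], []), ([0, 0, 0, 128, -1024, 4736, 3328], []), ([0, 0, 512, 12288, 38656, 21888], []), ([0,
0, 896, 17024, 2688, -8448], []), ([0, -640, -19584, -81664, -56704], []), ([0, -1664, -33536,
-22528, 10496], []), ([256, 13056, 84480, 72576], []), ([768, 24576, 24960, -6400], []), ([-3072,
-43392, -45952], []), ([-6144, -7552, 1536], []), ([8960, 11520], []), ([-768], [])], [([0, 0, 0,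
0, 256, 1088, 1152], []), ([0, 0, 0, -64, 512, 1408], []), ([0, 0, 0, -1408, -5952, -7488], []),
([0, 0, 256, -2304, -7040], []), ([0, 0, 2816, 12736, 19008], []), ([0, -320, 3584, 12480], []),
([0, -2432, -13760, -23616], []), ([128, -2304, -9088], []), ([768, 7680, 14400], []), ([512,
1856], []), ([-1792, -3456], []), ([384], [])], [], [([], []), ([0, 0, 0, 256, 1024, 1024], []),
([0, 0, 0, 1024, 2048], []), ([0, 0, -1024, -4608, -7168], []), ([0, 0, -4096, -11264], []), ([0,
1280, 7168, 19712], []), ([0, 5120, 22528], []), ([-512, -4608, -26624], []), ([-2048, -19456],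
[]), ([1024, 17664], []), ([6144], []), ([-4608], [])], [([0, 0, 0, 0, 256, 1024, 1024], []), ([0,
0, 0, 0, 1024, 2048], []), ([0, 0, 0, -1024, -4608, -7168], []), ([0, 0, 0, -4096, -11264], []),
([0, 0, 1280, 7168, 19712], []), ([0, 0, 5120, 22528], []), ([0, -512, -4608, -26624], []), ([0,
-2048, -19456], []), ([0, 1024, 17664], []), ([0, 6144], []), ([0, -4608], [])], [], [], []],
[[([0, 0, 0, 128, 512, 384, 0, 512], []), ([0, 0, 0, 512, -640, -3968, -256], []), ([0, 0, -512,
-1408, -1280, 6016, -3328], []), ([0, 0, -2048, 5632, 33536, 2432], []), ([0, 640, 0, 1280,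
-40704, 8448], []), ([0, 2560, -15488, -106368, -8064], []), ([-256, 2176, -1024, 107776, -10496],
[]), ([-1024, 16640, 159744, 12160], []), ([-1280, 1408, -139776, 6400], []), ([-6144, -114688,
-8576], []), ([-768, 88960, -1536], []), ([31744, 2304], []), ([-22272], [])], [([0, 0, 0, 64,
512, 960, 384], []), ([0, 0, 0, 128, 256, -640], []), ([0, 0, -256, -2816, -7360, -2496], []),
([0, 0, -512, -1664, 4736], []), ([0, 320, 5632, 21632, 6336], []), ([0, 640, 3840, -13440], []),
([-128, -4864, -30528, -7872], []), ([-256, -3712, 18304], []), ([1536, 20800, 4800], []), ([1280,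
-12032], []), ([-5504, -1152], []), ([3072], [])], [], [([0, 0, 0, -256, -1024, -1024], []), ([0,
0, 0, -1024, -2048], []), ([0, 0, 1024, 4608, 7168], []), ([0, 0, 4096, 11264], []), ([0, -1280,
-7168, -19712], []), ([0, -5120, -22528], []), ([512, 4608, 26624], []), ([2048, 19456], []),
([-1024, -17664], []), ([-6144], []), ([4608], [])], [([], []), ([0, 0, 0, -256, -1024, -1024],
[]), ([0, 0, 0, -1024, -2048], []), ([0, 0, 1024, 4608, 7168], []), ([0, 0, 4096, 11264], []),
([0, -1280, -7168, -19712], []), ([0, -5120, -22528], []), ([512, 4608, 26624], []), ([2048,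
19456], []), ([-1024, -17664], []), ([-6144], []), ([4608], [])], [], [], []], [[([0, 0, 0, 0,
-2048, -8192, -17920, -38912, -38912], []), ([0, 0, 0, 0, -10240, -36352, -94208, -124928], []),
([0, 0, 0, 10240, 8192, -64000, 5120, 311296], []), ([0, 0, 0, 51200, 95744, 289792, 882688], []),
([0, 0, -18432, 90112, 670208, 1082368, -1021440], []), ([0, 0, -92160, 102912, 384000, -2520576],
[]), ([0, 14336, -237568, -1574400, -4117504, 1760768], []), ([0, 71680, -519680, -2599936,
3726848], []), ([-4096, 212992, 1610752, 6906880, -1682944], []), ([-20480, 529408, 4011008,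
-3010048], []), ([-65536, -751616, -6098944, 846336], []), ([-172032, -2641920, 1257984], []),
([126976, 2777088, -175104], []), ([651264, -211968], []), ([-516096], [])], [([0, 0, 0, 0, 0,
2304, 9984, 12288, 3072], []), ([0, 0, 0, 0, 768, 13056, 26880, 7680], []), ([0, 0, 0, 0, -9984,
-41472, -69888, -19968], []), ([0, 0, 0, -3840, -62208, -141312, -45312], []), ([0, 0, 0, 13056,
58368, 148224, 50688], []), ([0, 0, 6912, 102144, 260352, 103680], []), ([0, 0, -2304, -47616,
-139008, -62976], []), ([0, -5376, -63744, -169728, -115968], []), ([0, -6144, 57600, 42240,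
38400], []), ([1536, 4608, -43008, 63744], []), ([3072, -58368, 15360, -9216], []), ([6144, 99072,
-13824], []), ([21504, -9216], []), ([-32256], [])], [], [], [], [], [], [([0, 0, 0, 0, 256, 1024,
1024], []), ([0, 0, 0, 0, 1024, 2048], []), ([0, 0, 0, -1280, -5632, -8192], []), ([0, 0, 0,
-5120, -13312], []), ([0, 0, 2304, 11776, 26880], []), ([0, 0, 9216, 33792], []), ([0, -1792,
-11776, -46336], []), ([0, -7168, -41984], []), ([512, 5632, 44288], []), ([2048, 25600], []),
([-1024, -22272], []), ([-6144], []), ([4608], [])]]]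

/-- the equations of the pencil -/
def XN : List (List (List Tb)) := [[[[], [], [], [], [], [], [], []], [[], [], [], [], [], [], [], []], [[], [], [([-1], [])], [],
[], [], [], []], [[], [], [], [([-1], [])], [], [], [], []], [[], [], [], [], [([-1], [])], [],
[], []], [[], [], [], [], [], [([-1], [])], [], []], [[], [], [], [], [], [], [([-1], [])], []],
[[], [], [], [], [], [], [], [([-1], [])]]], [[], [[], [], [], [], [], [], [], []], [[], [], [],
[], [], [([1], [])], [], []], [[], [], [], [], [], [], [([1], [])], []], [[], [], [], [], [], [],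
[], [([1], [])]], [[], [], [([4, 8], []), ([8], []), ([-12], [])], [], [], [], [], []], [[], [],
[], [([4, 8], []), ([8], []), ([-12], [])], [], [], [], []], [[], [], [], [], [([4, 8], []), ([8],
[]), ([-12], [])], [], [], []]], [[], [], [[], [([0, 0, 4], []), ([], []), ([0, -12], []), ([],
[]), ([8], [])], [([0, 0, 0, 0, -32, -32, 64], []), ([0, 0, 0, 32, -160, -32], []), ([0, 0, 0,
160, 480, -320], []), ([0, 0, -128, 1184, 288], []), ([0, 0, -288, -1920, 576], []), ([0, 160,
-2976, -800], []), ([0, 224, 3232, -448], []), ([-64, 3040, 864], []), ([-64, -2464, 128], []),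
([-1088, -320], []), ([704], [])], [([0, 0, 0, 0, 0, 0, 128], []), ([0, 0, 0, 0, -64, 192], []),
([0, 0, 0, 64, -256, -640], []), ([0, 0, 0, 384, -704], []), ([0, 0, -256, 1856, 1152], []), ([0,
0, -832, 704], []), ([0, 320, -4608, -896], []), ([0, 768, -64], []), ([-128, 4672, 256], []),
([-256, -128], []), ([-1664], [])], [([0, 0, 0, 0, 16], []), ([], []), ([0, 0, 0, -96], []), ([],
[]), ([0, 0, 208], []), ([], []), ([0, -192], []), ([], []), ([64], [])], [([0, 0, 0, 0, 0, -16],
[]), ([0, 0, 0, 16], []), ([0, 0, 0, -32, 80], []), ([0, 0, -64, 16], []), ([0, 0, 128, -144],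
[]), ([0, 80, -64], []), ([0, -160, 112], []), ([-32, 80], []), ([64, -32], []), ([-32], [])],
[([], []), ([], []), ([0, 0, 0, 32, -32], []), ([0, 0, 0, -32], []), ([0, 0, -128, 128], []), ([0,
0, 128], []), ([0, 160, -160], []), ([0, -160], []), ([-64, 64], []), ([64], [])], []], [[([0, 0,
-8], []), ([], []), ([0, 24], []), ([], []), ([-16], [])], [], [([0, 0, 0, -32, -192, -352, -64],
[]), ([0, 0, 0, 64, -608, -160], []), ([0, 0, 128, 384, 1984, 320], []), ([0, 0, -256, 3392, 800],
[]), ([0, -160, 576, -4672, -576], []), ([0, 320, -6880, -1440], []), ([64, -1536, 6016, 448],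
[]), ([-128, 6016, 1120], []), ([768, -4192, -128], []), ([-1920, -320], []), ([1216], [])], [([0,
0, 0, 0, 32, -96, -192], []), ([0, 0, 0, -96, -224, -288], []), ([0, 0, 0, -224, -416, 960], []),
([0, 0, 384, 160, 1312], []), ([0, 0, 544, 3392, -1728], []), ([0, -480, 1824, -2080], []), ([0,
-544, -6496, 1344], []), ([192, -3232, 1376], []), ([192, 4960, -384], []), ([1472, -320], []),
([-1344], [])], [([0, 0, 0, 0, 32], []), ([0, 0, 0, 32], []), ([0, 0, 0, -160], []), ([0, 0,
-128], []), ([0, 0, 288], []), ([0, 160], []), ([0, -224], []), ([-64], []), ([64], [])], [([0, 0,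
0, -16, -32, -48], []), ([0, 0, 0, 64], []), ([0, 0, 64, 80, 240], []), ([0, 0, -256], []), ([0,
-80, 32, -432], []), ([0, 320], []), ([32, -176, 336], []), ([-128], []), ([96, -96], [])], [([0,
0, 0, 0, 0, -16], []), ([0, 0, 0, -48, -32], []), ([0, 0, 0, 64, 80], []), ([0, 0, 192, 176], []),
([0, 0, -256, -144], []), ([0, -240, -352], []), ([0, 320, 112], []), ([96, 304], []), ([-128,
-32], []), ([-96], [])], []], [[([0, 0, 0, 0, 64], []), ([0, 0, -32, 96], []), ([0, 32, -128,
-128], []), ([0, 96, -64], []), ([-32, 544, 64], []), ([-64, -32], []), ([-416], [])], [([0, 0,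
16, 16, -32], []), ([0, -16, 80, 16], []), ([0, -32, -192, 64], []), ([16, -352, -96], []), ([16,
352, -32], []), ([272, 80], []), ([-176], [])], [([0, 0, 0, 0, -512, -1024, 128, 256], []), ([0,
0, 0, 0, -512, 640, -512], []), ([0, 0, 0, 2560, 5632, -5504, -1664], []), ([0, 0, 0, 2560, -8832,
3712], []), ([0, 0, -4608, -11776, 31616, 4224], []), ([0, 0, -4608, 33920, -10368], []), ([0,
3584, 11776, -75392, -5248], []), ([0, 3584, -55168, 13952], []), ([-1024, -5632, 89600, 3200],
[]), ([-1024, 40704, -9088], []), ([1024, -52736, -768], []), ([-11264, 2304], []), ([12288],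
[])], [([0, 0, 0, 0, 0, 2048, 5120, 2048], []), ([0, 0, 0, 0, -1024, 5120, 8192], []), ([0, 0, 0,
0, -15360, -31744, -13312], []), ([0, 0, 0, 5120, -28672, -50176], []), ([0, 0, 0, 44032, 86016,
33792], []), ([0, 0, -9216, 61440, 119808], []), ([0, 0, -60416, -137216, -41984], []), ([0, 7168,
-63488, -140288], []), ([0, 39936, 136192, 25600], []), ([-2048, 31744, 80896], []), ([-10240,
-76800, -6144], []), ([-6144, -18432], []), ([18432], [])], [([0, 0, 0, 0, 32, 160, 64], []), ([0,
0, 0, 32, 544, 352], []), ([0, 0, 0, -96, -544, -320], []), ([0, 0, -128, -2528, -1888], []), ([0,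
0, 32, 448, 576], []), ([0, 160, 4128, 3680], []), ([0, 96, 32, -448], []), ([-64, -2848, -3104],
[]), ([-64, -32, 128], []), ([704, 960], []), ([-64], [])], [([0, 0, 0, 0, 0, 192, 192, -128],
[]), ([0, 0, 0, 0, 192, 64, -448], []), ([0, 0, 0, 384, -1088, -2368, 640], []), ([0, 0, 0, -960,
-1408, 2240], []), ([0, 0, -1536, 1344, 8256, -1152], []), ([0, 0, 1728, 5120, -4032], []), ([0,
1920, 1600, -11968, 896], []), ([0, -1344, -6656, 3136], []), ([-768, -3840, 7680, -256], []),
([384, 3264, -896], []), ([1792, -1792], []), ([-384], [])], [([0, 0, 0, 0, 0, 0, 0, -256], []),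
([0, 0, 0, 0, 0, 384, -384], []), ([0, 0, 0, 0, 256, -384, 1280], []), ([0, 0, 0, 384, -2816,
1408], []), ([0, 0, 0, -1280, 1024, -2304], []), ([0, 0, -1536, 6912, -1408], []), ([0, 0, 2304,
128, 1792], []), ([0, 1920, -6656, 128], []), ([0, -1792, -1792, -512], []), ([-768, 1920, 256],
[]), ([512, 1024], []), ([256], [])], [([0, 0, 0, 0, 0, -48], []), ([0, 0, 0, -16, -32], []), ([0,
0, 0, 0, 240], []), ([0, 0, 64, 208], []), ([0, 0, 0, -432], []), ([0, -80, -480], []), ([0, 0,
336], []), ([32, 464], []), ([0, -96], []), ([-160], [])]], [[], [], [([0, 0, 0, 0, 0, 128, 256],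
[]), ([0, 0, 0, -128, -256, 256], []), ([0, 0, 0, 0, -128, -1664], []), ([0, 0, 512, 1792, -1536],
[]), ([0, 0, 0, -1920, 4224], []), ([0, -640, -4352, 3712], []), ([0, 0, 5760, -5248], []), ([256,
4352, -4608], []), ([0, -5888, 3200], []), ([-1536, 2944], []), ([2048, -768], []), ([-768], [])],
[([], []), ([], []), ([0, 0, 0, -256, -256, 512], []), ([0, 0, 0, -256, 1024], []), ([0, 0, 1024,
2304, -2816], []), ([0, 0, 1024, -4864], []), ([0, -1280, -6400, 5632], []), ([0, -1280, 8192],
[]), ([512, 6912, -4864], []), ([512, -5888], []), ([-2560, 1536], []), ([1536], [])], [], [([0,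
0, 0, 0, 64, 64, -128], []), ([0, 0, 0, -64, 320, 64], []), ([0, 0, 0, -320, -960, 640], []), ([0,
0, 256, -2368, -576], []), ([0, 0, 576, 3840, -1152], []), ([0, -320, 5952, 1600], []), ([0, -448,
-6464, 896], []), ([128, -6080, -1728], []), ([128, 4928, -256], []), ([2176, 640], []), ([-1408],
[])], [([0, 0, 0, 0, 0, 0, -256], []), ([0, 0, 0, 0, 128, -384], []), ([0, 0, 0, -128, 512, 1280],
[]), ([0, 0, 0, -768, 1408], []), ([0, 0, 512, -3712, -2304], []), ([0, 0, 1664, -1408], []), ([0,
-640, 9216, 1792], []), ([0, -1536, 128], []), ([256, -9344, -512], []), ([512, 256], []),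
([3328], [])], [([0, 0, 0, 0, -32], []), ([], []), ([0, 0, 0, 192], []), ([], []), ([0, 0, -416],
[]), ([], []), ([0, 384], []), ([], []), ([-128], [])]], [[], [], [([0, 0, 0, 64, 256, 448, 384],
[]), ([0, 0, 0, -128, -256, 384], []), ([0, 0, -256, -1536, -1984, -2496], []), ([0, 0, 512, 2176,
-1920], []), ([0, 320, 3328, 2432, 6336], []), ([0, -640, -5888, 3456], []), ([-128, -3072, 448,
-7872], []), ([256, 6272, -2688], []), ([1024, -2496, 4800], []), ([-2304, 768], []), ([1152,
-1152], [])], [([0, 0, 0, 0, 0, 64, 128], []), ([0, 0, 0, 192, 512, 384], []), ([0, 0, 0, 128,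
-576, -832], []), ([0, 0, -768, -3328, -2432], []), ([0, 0, -512, 1984, 2112], []), ([0, 960,
7680, 6080], []), ([0, 640, -3264, -2624], []), ([-384, -7424, -7552], []), ([-256, 2560, 1600],
[]), ([2560, 4672], []), ([-768, -384], []), ([-1152], [])], [], [([0, 0, 0, 32, 192, 352, 64],
[]), ([0, 0, 0, -64, 608, 160], []), ([0, 0, -128, -384, -1984, -320], []), ([0, 0, 256, -3392,
-800], []), ([0, 160, -576, 4672, 576], []), ([0, -320, 6880, 1440], []), ([-64, 1536, -6016,
-448], []), ([128, -6016, -1120], []), ([-768, 4192, 128], []), ([1920, 320], []), ([-1216], [])],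
[([0, 0, 0, 0, -32, 96, 192], []), ([0, 0, 0, 96, 224, 288], []), ([0, 0, 0, 224, 416, -960], []),
([0, 0, -384, -160, -1312], []), ([0, 0, -544, -3392, 1728], []), ([0, 480, -1824, 2080], []),
([0, 544, 6496, -1344], []), ([-192, 3232, -1376], []), ([-192, -4960, 384], []), ([-1472, 320],
[]), ([1344], [])], [([0, 0, 0, 0, -32], []), ([0, 0, 0, -32], []), ([0, 0, 0, 160], []), ([0, 0,
128], []), ([0, 0, -288], []), ([0, -160], []), ([0, 224], []), ([64], []), ([-64], [])]], [[([],
[]), ([], []), ([0, 64, 64, -128], []), ([0, 64, -256], []), ([-64, -384, 320], []), ([-64, 448],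
[]), ([320, -192], []), ([-192], [])], [([0, 0, 0, 32, 64], []), ([0, -32, -64, 64], []), ([0, 0,
64, -224], []), ([32, 256, -192], []), ([0, -352, 256], []), ([-192, 224], []), ([256, -96], []),
([-96], [])], [([0, 0, 0, 0, 0, -768, -2304, -1024, 1024], []), ([0, 0, 0, 0, -768, -3328, -256,
4608], []), ([0, 0, 0, -1536, -256, 19968, 22272, -6656], []), ([0, 0, 0, 768, 24320, 22016,
-28416], []), ([0, 0, 6144, 19200, -45568, -107776, 16896], []), ([0, 0, 5376, -56576, -107776,
68352], []), ([0, -7680, -54016, 10240, 223488, -20992], []), ([0, -9984, 45312, 197888, -80640],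
[]), ([3072, 55296, 72448, -229120, 12800], []), ([4608, -1536, -163840, 46848], []), ([-19456,
-79360, 113664, -3072], []), ([-8192, 56576, -10752], []), ([24576, -21504], []), ([-4608], [])],
[([0, 0, 0, 0, 0, 0, 0, 1024, 2048], []), ([0, 0, 0, 0, 0, -1536, -1536, 5120], []), ([0, 0, 0, 0,
-1024, -3584, 1024, -13312], []), ([0, 0, 0, -1536, 6144, 24576, -26112], []), ([0, 0, 0, 2048,
31744, -14848, 33792], []), ([0, 0, 6144, -512, -91648, 46592], []), ([0, 0, 3072, -89600, 15360,
-41984], []), ([0, -7680, -25600, 134656, -32256], []), ([0, -8192, 102400, 16896, 25600], []),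
([3072, 35840, -81920, 3584], []), ([4096, -45056, -31744, -6144], []), ([-14336, 12800, 3072],
[]), ([4096, 12288], []), ([3072], [])], [([0, 0, 0, 0, 0, 192, 384], []), ([0, 0, 0, 64, 256,
640], []), ([0, 0, 0, 128, -704, -2496], []), ([0, 0, -256, -1536, -3968], []), ([0, 0, -512, 64,
6336], []), ([0, 320, 3328, 9792], []), ([0, 640, 2496, -7872], []), ([-128, -3072, -12160], []),
([-256, -3328, 4800], []), ([1024, 7616], []), ([1280, -1152], []), ([-1920], [])], [([0, 0, 0, 0,
512, 1024, -128, -256], []), ([0, 0, 0, 0, 512, -640, 512], []), ([0, 0, 0, -2560, -5632, 5504,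
1664], []), ([0, 0, 0, -2560, 8832, -3712], []), ([0, 0, 4608, 11776, -31616, -4224], []), ([0, 0,
4608, -33920, 10368], []), ([0, -3584, -11776, 75392, 5248], []), ([0, -3584, 55168, -13952], []),
([1024, 5632, -89600, -3200], []), ([1024, -40704, 9088], []), ([-1024, 52736, 768], []), ([11264,
-2304], []), ([-12288], [])], [([0, 0, 0, 0, 0, -2048, -5120, -2048], []), ([0, 0, 0, 0, 1024,
-5120, -8192], []), ([0, 0, 0, 0, 15360, 31744, 13312], []), ([0, 0, 0, -5120, 28672, 50176], []),
([0, 0, 0, -44032, -86016, -33792], []), ([0, 0, 9216, -61440, -119808], []), ([0, 0, 60416,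
137216, 41984], []), ([0, -7168, 63488, 140288], []), ([0, -39936, -136192, -25600], []), ([2048,
-31744, -80896], []), ([10240, 76800, 6144], []), ([6144, 18432], []), ([-18432], [])], [([0, 0,
0, 0, -32, -160, -64], []), ([0, 0, 0, -32, -544, -352], []), ([0, 0, 0, 96, 544, 320], []), ([0,
0, 128, 2528, 1888], []), ([0, 0, -32, -448, -576], []), ([0, -160, -4128, -3680], []), ([0, -96,
-32, 448], []), ([64, 2848, 3104], []), ([64, 32, -128], []), ([-704, -960], []), ([64], [])]]],
[[], [], [], [[([0, 0, -8], []), ([0, -8], []), ([0, 16], []), ([8], []), ([-8], [])], [([0, 4,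
4], []), ([], []), ([-4, -8], []), ([], []), ([4], [])], [([0, 0, 0, -64, -128, -64], []), ([0, 0,
0, 192, 192, 128], []), ([0, 0, 256, 320, 320], []), ([0, 0, -768, -704, -640], []), ([0, -320,
128, -576], []), ([0, 960, 704, 1152], []), ([128, -704, 448], []), ([-384, -64, -896], []),
([384, -128], []), ([-128, 256], [])], [([0, 0, 0, 32, 128, 160, 64], []), ([0, 0, 0, 0, 96, 32],
[]), ([0, 0, -128, -256, -512, -320], []), ([0, 0, 0, -512, -160], []), ([0, 160, -384, 128, 576],
[]), ([0, 0, 992, 288], []), ([-64, 1024, 960, -448], []), ([0, -832, -224], []), ([-512, -1056,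
128], []), ([256, 64], []), ([320], [])], [([0, 0, 0, -16, -16], []), ([], []), ([0, 0, 64, 80],
[]), ([], []), ([0, -80, -144], []), ([], []), ([32, 112], []), ([], []), ([-32], [])], [([0, 0,
0, -32, -32], []), ([0, 0, 0, 64, 64], []), ([0, 0, 128, 160], []), ([0, 0, -256, -320], []), ([0,
-160, -288], []), ([0, 320, 576], []), ([64, 224], []), ([-128, -448], []), ([-64], []), ([128],
[])], [([0, 0, 0, 16, 32, 16], []), ([0, 0, 0, -32, -32], []), ([0, 0, -64, -144, -80], []), ([0,
0, 128, 160], []), ([0, 80, 224, 144], []), ([0, -160, -288], []), ([-32, -144, -112], []), ([64,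
224], []), ([32, 32], []), ([-64], [])], []], [[([0, 0, 0, -64, -64], []), ([0, -32, -192, -160],
[]), ([0, -32, -160, 128], []), ([32, 96, 320], []), ([32, 384, -64], []), ([96, -160], []),
([-160], [])], [([0, 16, 64, 80, 32], []), ([0, 0, 48, 16], []), ([-16, 64, -16, -64], []), ([0,
-112, -32], []), ([-128, -144, 32], []), ([64, 16], []), ([80], [])], [([0, 0, 0, 0, -3072, -8192,
-4096], []), ([0, 0, 0, 0, -5120, -3072, -2048], []), ([0, 0, 0, 15360, 54272, 28672], []), ([0,
0, 0, 25600, 16384, 13312], []), ([0, 0, -27648, -140288, -83968], []), ([0, 0, -46080, -32768,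
-33792], []), ([0, 21504, 177152, 133120], []), ([0, 35840, 30720, 41984], []), ([-6144, -109568,
-120832], []), ([-10240, -13312, -25600], []), ([26624, 59392], []), ([2048, 6144], []),
([-12288], [])], [([0, 0, 0, 0, 512, 0, -2944, -1792], []), ([0, 0, 0, 0, -512, -6528, -4608],
[]), ([0, 0, 0, -2560, -7680, 8832, 11648], []), ([0, 0, 0, 2560, 31104, 27264], []), ([0, 0,
4608, 38400, 12160, -29568], []), ([0, 0, -4608, -51072, -62592], []), ([0, -3584, -69120, -78464,
36736], []), ([0, 3584, 31872, 70272], []), ([1024, 53760, 118272, -22400], []), ([-1024, -2304,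
-38784], []), ([-15360, -76288, 5376], []), ([-3072, 8448], []), ([18432], [])], [([0, 0, 0, -32,
-64, 32, -64], []), ([0, 0, 0, -64, 416, 96], []), ([0, 0, 128, 128, -960, 320], []), ([0, 0, 256,
-2368, -480], []), ([0, -160, 192, 4416, -576], []), ([0, -320, 4896, 864], []), ([64, -512,
-7936, 448], []), ([128, -4352, -672], []), ([256, 6304, -128], []), ([1408, 192], []), ([-1856],
[])], [([0, 0, 0, 0, -128, -256, -128], []), ([0, 0, 0, -384, -640, 256, 256], []), ([0, 0, 0,
640, 2304, 1408], []), ([0, 0, 1536, 4224, 512, -1280], []), ([0, 0, -1152, -6528, -4992], []),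
([0, -1920, -9856, -6144, 2304], []), ([0, 896, 7424, 7808], []), ([768, 9600, 12288, -1792], []),
([-256, -3200, -5632], []), ([-3328, -9472, 512], []), ([256, 1536], []), ([2560], [])], [([0, 0,
0, 0, 0, -192, -192, 128], []), ([0, 0, 0, 0, -192, -64, 448], []), ([0, 0, 0, -384, 1088, 2368,
-640], []), ([0, 0, 0, 960, 1408, -2240], []), ([0, 0, 1536, -1344, -8256, 1152], []), ([0, 0,
-1728, -5120, 4032], []), ([0, -1920, -1600, 11968, -896], []), ([0, 1344, 6656, -3136], []),
([768, 3840, -7680, 256], []), ([-384, -3264, 896], []), ([-1792, 1792], []), ([384], [])], [([0,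
0, 0, 16, 32, -16], []), ([0, 0, 0, 0, -64], []), ([0, 0, -64, -208, 80], []), ([0, 0, 0, 320],
[]), ([0, 80, 480, -144], []), ([0, 0, -576], []), ([-32, -464, 112], []), ([0, 448], []), ([160,
-32], []), ([-128], [])]], [[], [], [([0, 0, 0, 64, 256, 448, 384], []), ([0, 0, 0, -128, -256,
384], []), ([0, 0, -256, -1536, -1984, -2496], []), ([0, 0, 512, 2176, -1920], []), ([0, 320,
3328, 2432, 6336], []), ([0, -640, -5888, 3456], []), ([-128, -3072, 448, -7872], []), ([256,
6272, -2688], []), ([1024, -2496, 4800], []), ([-2304, 768], []), ([1152, -1152], [])], [([0, 0,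
0, 0, 0, 64, 128], []), ([0, 0, 0, 192, 512, 384], []), ([0, 0, 0, 128, -576, -832], []), ([0, 0,
-768, -3328, -2432], []), ([0, 0, -512, 1984, 2112], []), ([0, 960, 7680, 6080], []), ([0, 640,
-3264, -2624], []), ([-384, -7424, -7552], []), ([-256, 2560, 1600], []), ([2560, 4672], []),
([-768, -384], []), ([-1152], [])], [], [([0, 0, 0, 32, 192, 352, 64], []), ([0, 0, 0, -64, 608,
160], []), ([0, 0, -128, -384, -1984, -320], []), ([0, 0, 256, -3392, -800], []), ([0, 160, -576,
4672, 576], []), ([0, -320, 6880, 1440], []), ([-64, 1536, -6016, -448], []), ([128, -6016,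
-1120], []), ([-768, 4192, 128], []), ([1920, 320], []), ([-1216], [])], [([0, 0, 0, 0, -32, 96,
192], []), ([0, 0, 0, 96, 224, 288], []), ([0, 0, 0, 224, 416, -960], []), ([0, 0, -384, -160,
-1312], []), ([0, 0, -544, -3392, 1728], []), ([0, 480, -1824, 2080], []), ([0, 544, 6496, -1344],
[]), ([-192, 3232, -1376], []), ([-192, -4960, 384], []), ([-1472, 320], []), ([1344], [])], [([0,
0, 0, 0, -32], []), ([0, 0, 0, -32], []), ([0, 0, 0, 160], []), ([0, 0, 128], []), ([0, 0, -288],
[]), ([0, -160], []), ([0, 224], []), ([64], []), ([-64], [])]], [[], [], [([0, 0, 0, 256, 768,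
512], []), ([0, 0, 0, 0, -1024, -1024], []), ([0, 0, -1024, -5120, -4352], []), ([0, 0, 0, 5632,
6656], []), ([0, 1280, 12032, 13568], []), ([0, 0, -11264, -16896], []), ([-512, -11776, -19712],
[]), ([0, 9728, 20992], []), ([4096, 13568], []), ([-3072, -12800], []), ([-3584], []), ([3072],
[])], [([0, 0, 0, -128, -512, -640, -256], []), ([0, 0, 0, 0, 256, 256], []), ([0, 0, 512, 3072,
4224, 1664], []), ([0, 0, 0, -1792, -2048], []), ([0, -640, -6656, -10752, -4224], []), ([0, 0,
4352, 6144], []), ([256, 6144, 13184, 5248], []), ([0, -4352, -8704], []), ([-2048, -7808, -3200],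
[]), ([1536, 5888], []), ([1792, 768], []), ([-1536], [])], [], [([0, 0, 0, 128, 256, 128], []),
([0, 0, 0, -384, -384, -256], []), ([0, 0, -512, -640, -640], []), ([0, 0, 1536, 1408, 1280], []),
([0, 640, -256, 1152], []), ([0, -1920, -1408, -2304], []), ([-256, 1408, -896], []), ([768, 128,
1792], []), ([-768, 256], []), ([256, -512], [])], [([0, 0, 0, -64, -256, -320, -128], []), ([0,
0, 0, 0, -192, -64], []), ([0, 0, 256, 512, 1024, 640], []), ([0, 0, 0, 1024, 320], []), ([0,
-320, 768, -256, -1152], []), ([0, 0, -1984, -576], []), ([128, -2048, -1920, 896], []), ([0,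
1664, 448], []), ([1024, 2112, -256], []), ([-512, -128], []), ([-640], [])], [([0, 0, 0, 32, 32],
[]), ([], []), ([0, 0, -128, -160], []), ([], []), ([0, 160, 288], []), ([], []), ([-64, -224],
[]), ([], []), ([64], [])]], [[([0, 0, 0, -64, -128], []), ([0, -64, -192, -256], []), ([0, -64,
128, 448], []), ([64, 640, 832], []), ([64, 0, -512], []), ([-448, -960], []), ([-64, 192], []),
([384], [])], [([0, 32, 128, 160, 64], []), ([0, 0, -64, -64], []), ([-32, -384, -576, -224], []),
([0, 256, 320], []), ([256, 640, 256], []), ([-192, -448], []), ([-224, -96], []), ([192], [])],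
[([0, 0, 0, 0, 512, 2048, 2560, 1024], []), ([0, 0, 0, 1536, 6656, 6144, -2048, -2048], []), ([0,
0, 0, 512, -10752, -29184, -14848], []), ([0, 0, -6144, -38912, -61952, -7168, 13312], []), ([0,
0, -7680, 9216, 95744, 67072], []), ([0, 7680, 82432, 206336, 86016, -33792], []), ([0, 11776,
28160, -119808, -140800], []), ([-3072, -74752, -303616, -227328, 41984], []), ([-5120, -51200,
38912, 153088], []), ([24576, 205312, 266240, -25600], []), ([22528, 29184, -83968], []),
([-52224, -146432, 6144], []), ([-17408, 18432], []), ([30720], [])], [([0, 0, 0, 0, 0, 768, 2304,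
1024, -1024], []), ([0, 0, 0, 0, 768, 3328, 256, -4608], []), ([0, 0, 0, 1536, 256, -19968,
-22272, 6656], []), ([0, 0, 0, -768, -24320, -22016, 28416], []), ([0, 0, -6144, -19200, 45568,
107776, -16896], []), ([0, 0, -5376, 56576, 107776, -68352], []), ([0, 7680, 54016, -10240,
-223488, 20992], []), ([0, 9984, -45312, -197888, 80640], []), ([-3072, -55296, -72448, 229120,
-12800], []), ([-4608, 1536, 163840, -46848], []), ([19456, 79360, -113664, 3072], []), ([8192,
-56576, 10752], []), ([-24576, 21504], []), ([4608], [])], [([0, 0, 0, -64, -256, -192, 128], []),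
([0, 0, 0, -128, 0, 640], []), ([0, 0, 256, 1536, 2240, -832], []), ([0, 0, 512, 384, -3968], []),
([0, -320, -3328, -8320, 2112], []), ([0, -640, -1536, 9600], []), ([128, 3072, 13632, -2624],
[]), ([256, 1920, -11392], []), ([-1024, -10304, 1600], []), ([-768, 6656], []), ([2944, -384],
[]), ([-1536], [])], [([0, 0, 0, 0, 3072, 8192, 4096], []), ([0, 0, 0, 0, 5120, 3072, 2048], []),
([0, 0, 0, -15360, -54272, -28672], []), ([0, 0, 0, -25600, -16384, -13312], []), ([0, 0, 27648,
140288, 83968], []), ([0, 0, 46080, 32768, 33792], []), ([0, -21504, -177152, -133120], []), ([0,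
-35840, -30720, -41984], []), ([6144, 109568, 120832], []), ([10240, 13312, 25600], []), ([-26624,
-59392], []), ([-2048, -6144], []), ([12288], [])], [([0, 0, 0, 0, -512, 0, 2944, 1792], []), ([0,
0, 0, 0, 512, 6528, 4608], []), ([0, 0, 0, 2560, 7680, -8832, -11648], []), ([0, 0, 0, -2560,
-31104, -27264], []), ([0, 0, -4608, -38400, -12160, 29568], []), ([0, 0, 4608, 51072, 62592],
[]), ([0, 3584, 69120, 78464, -36736], []), ([0, -3584, -31872, -70272], []), ([-1024, -53760,
-118272, 22400], []), ([1024, 2304, 38784], []), ([15360, 76288, -5376], []), ([3072, -8448], []),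
([-18432], [])], [([0, 0, 0, 32, 64, -32, 64], []), ([0, 0, 0, 64, -416, -96], []), ([0, 0, -128,
-128, 960, -320], []), ([0, 0, -256, 2368, 480], []), ([0, 160, -192, -4416, 576], []), ([0, 320,
-4896, -864], []), ([-64, 512, 7936, -448], []), ([-128, 4352, 672], []), ([-256, -6304, 128],
[]), ([-1408, -192], []), ([1856], [])]]], [[], [], [], [], [[([0, 0, 0, 512, 1280, 512], []),
([0, 0, -256, 1280, 2048], []), ([0, 0, -2304, -4096, -1792], []), ([0, 512, -3328, -6400], []),
([0, 3072, 6656, 2048], []), ([-256, 2816, 6656], []), ([-1280, -6144, -768], []), ([-768, -2304],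
[]), ([2304], [])], [([0, 0, 128, 128, -384, -256], []), ([0, 0, 0, -896, -512], []), ([0, -256,
-1280, 640, 896], []), ([0, 0, 2304, 1408], []), ([128, 2176, 256, -1024], []), ([0, -1920,
-1280], []), ([-1024, -896, 384], []), ([512, 384], []), ([384], [])], [([0, 0, 0, 0, -4096,
-30720, -73728, -67584, -20480], []), ([0, 0, 0, 0, -16384, -75776, -88064, -24576], []), ([0, 0,
0, 20480, 116736, 323584, 393216, 153600], []), ([0, 0, 0, 81920, 362496, 493568, 145408], []),
([0, 0, -36864, -92160, -270336, -792576, -471040], []), ([0, 0, -147456, -600064, -1091584,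
-327680], []), ([0, 28672, -116736, -729088, 448512, 757760], []), ([0, 114688, 382976, 1259520,
344064], []), ([-8192, 196608, 1679360, 614400, -675840], []), ([-32768, -36864, -843776,
-151552], []), ([-73728, -1265664, -1087488, 317440], []), ([-32768, 335872, 2048], []), ([335872,
614400, -61440], []), ([-65536, 12288], []), ([-122880], [])], [([0, 0, 0, 0, 0, 4096, 10240,
2048, -4096], []), ([0, 0, 0, 0, -4096, 14336, 69632, 69632], []), ([0, 0, 0, 0, -40960, -71680,
30720, 22528], []), ([0, 0, 0, 20480, -153600, -618496, -589824], []), ([0, 0, 0, 139264, 112640,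
-235520, -40960], []), ([0, 0, -36864, 538624, 2228224, 2025472], []), ([0, 0, -212992, 153600,
538624, 16384], []), ([0, 28672, -837632, -4169728, -3614720], []), ([0, 151552, -573440, -417792,
32768], []), ([-8192, 602112, 4280320, 3545088], []), ([-40960, 532480, -126976, -38912], []),
([-163840, -2289664, -1816576], []), ([-163840, 331776, 12288], []), ([499712, 380928], []),
([-122880], [])], [([0, 0, 0, 0, 0, 512, 1664, 1280], []), ([0, 0, 0, 0, 512, 3200, 3584], []),
([0, 0, 0, 0, 1024, -2432, -8320], []), ([0, 0, 0, -2560, -12416, -21376], []), ([0, 0, 0, -13312,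
-22144, 21120], []), ([0, 0, 4608, 10880, 49536], []), ([0, 0, 28672, 79744, -26240], []), ([0,
-3584, 9856, -56192], []), ([0, -24064, -107008, 16000], []), ([1024, -18688, 31360], []), ([7168,
65536, -3840], []), ([7168, -6912], []), ([-15360], [])], [([0, 0, 0, 0, 2048, 10240, 15360,
6144], []), ([0, 0, 0, 0, 1024, 1024, -5120, -2048], []), ([0, 0, 0, -10240, -66560, -117760,
-54272], []), ([0, 0, 0, -5120, 0, 32768, 13312], []), ([0, 0, 18432, 168960, 356352, 191488],
[]), ([0, 0, 9216, -16384, -88064, -33792], []), ([0, -14336, -209920, -542720, -347136], []),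
([0, -7168, 38912, 131072, 41984], []), ([4096, 128000, 437248, 343040], []), ([2048, -33792,
-115712, -25600], []), ([-30720, -175104, -176128], []), ([10240, 57344, 6144], []), ([26624,
36864], []), ([-12288], [])], [([0, 0, 0, 0, 0, 0, -2048, -5120, -2048], []), ([0, 0, 0, 0, 2048,
6144, -3072, -8192], []), ([0, 0, 0, 0, 1024, 7168, 23552, 13312], []), ([0, 0, 0, -10240, -41984,
9216, 50176], []), ([0, 0, 0, -5120, 8192, -32768, -33792], []), ([0, 0, 18432, 111616, 0,
-119808], []), ([0, 0, 9216, -69632, 2048, 41984], []), ([0, -14336, -144384, -18432, 140288],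
[]), ([0, -7168, 118784, 31744, -25600], []), ([4096, 91136, 9216, -80896], []), ([2048, -84992,
-25600, 6144], []), ([-22528, 9216, 18432], []), ([22528, 6144], []), ([-6144], [])], [([0, 0, 0,
0, 0, -192, -448, -128], []), ([0, 0, 0, 0, -64, -576, -192], []), ([0, 0, 0, 0, 960, 2112, 640],
[]), ([0, 0, 0, 320, 2432, 960], []), ([0, 0, 0, -1728, -3392, -1152], []), ([0, 0, -576, -2944,
-1728], []), ([0, 0, 1344, 1984, 896], []), ([0, 448, 0, 1344], []), ([0, -384, 0, -256], []),
([-128, 1984, -384], []), ([0, -256], []), ([-896], [])]], [[([], []), ([], []), ([0, -64, -64,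
128], []), ([0, -64, 256], []), ([64, 384, -320], []), ([64, -448], []), ([-320, 192], []),
([192], [])], [([0, 0, 0, -32, -64], []), ([0, 32, 64, -64], []), ([0, 0, -64, 224], []), ([-32,
-256, 192], []), ([0, 352, -256], []), ([192, -224], []), ([-256, 96], []), ([96], [])], [([0, 0,
0, 0, 0, -768, -2304, -1024, 1024], []), ([0, 0, 0, 0, -768, -3328, -256, 4608], []), ([0, 0, 0,
-1536, -256, 19968, 22272, -6656], []), ([0, 0, 0, 768, 24320, 22016, -28416], []), ([0, 0, 6144,
19200, -45568, -107776, 16896], []), ([0, 0, 5376, -56576, -107776, 68352], []), ([0, -7680,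
-54016, 10240, 223488, -20992], []), ([0, -9984, 45312, 197888, -80640], []), ([3072, 55296,
72448, -229120, 12800], []), ([4608, -1536, -163840, 46848], []), ([-19456, -79360, 113664,
-3072], []), ([-8192, 56576, -10752], []), ([24576, -21504], []), ([-4608], [])], [([0, 0, 0, 0,
0, 0, 0, 1024, 2048], []), ([0, 0, 0, 0, 0, -1536, -1536, 5120], []), ([0, 0, 0, 0, -1024, -3584,
1024, -13312], []), ([0, 0, 0, -1536, 6144, 24576, -26112], []), ([0, 0, 0, 2048, 31744, -14848,
33792], []), ([0, 0, 6144, -512, -91648, 46592], []), ([0, 0, 3072, -89600, 15360, -41984], []),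
([0, -7680, -25600, 134656, -32256], []), ([0, -8192, 102400, 16896, 25600], []), ([3072, 35840,
-81920, 3584], []), ([4096, -45056, -31744, -6144], []), ([-14336, 12800, 3072], []), ([4096,
12288], []), ([3072], [])], [([0, 0, 0, 0, 0, 192, 384], []), ([0, 0, 0, 64, 256, 640], []), ([0,
0, 0, 128, -704, -2496], []), ([0, 0, -256, -1536, -3968], []), ([0, 0, -512, 64, 6336], []), ([0,
320, 3328, 9792], []), ([0, 640, 2496, -7872], []), ([-128, -3072, -12160], []), ([-256, -3328,
4800], []), ([1024, 7616], []), ([1280, -1152], []), ([-1920], [])], [([0, 0, 0, 0, 512, 1024,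
-128, -256], []), ([0, 0, 0, 0, 512, -640, 512], []), ([0, 0, 0, -2560, -5632, 5504, 1664], []),
([0, 0, 0, -2560, 8832, -3712], []), ([0, 0, 4608, 11776, -31616, -4224], []), ([0, 0, 4608,
-33920, 10368], []), ([0, -3584, -11776, 75392, 5248], []), ([0, -3584, 55168, -13952], []),
([1024, 5632, -89600, -3200], []), ([1024, -40704, 9088], []), ([-1024, 52736, 768], []), ([11264,
-2304], []), ([-12288], [])], [([0, 0, 0, 0, 0, -2048, -5120, -2048], []), ([0, 0, 0, 0, 1024,
-5120, -8192], []), ([0, 0, 0, 0, 15360, 31744, 13312], []), ([0, 0, 0, -5120, 28672, 50176], []),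
([0, 0, 0, -44032, -86016, -33792], []), ([0, 0, 9216, -61440, -119808], []), ([0, 0, 60416,
137216, 41984], []), ([0, -7168, 63488, 140288], []), ([0, -39936, -136192, -25600], []), ([2048,
-31744, -80896], []), ([10240, 76800, 6144], []), ([6144, 18432], []), ([-18432], [])], [([0, 0,
0, 0, -32, -160, -64], []), ([0, 0, 0, -32, -544, -352], []), ([0, 0, 0, 96, 544, 320], []), ([0,
0, 128, 2528, 1888], []), ([0, 0, -32, -448, -576], []), ([0, -160, -4128, -3680], []), ([0, -96,
-32, 448], []), ([64, 2848, 3104], []), ([64, 32, -128], []), ([-704, -960], []), ([64], [])]],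
[[([0, 0, 0, 64, 128], []), ([0, 64, 192, 256], []), ([0, 64, -128, -448], []), ([-64, -640,
-832], []), ([-64, 0, 512], []), ([448, 960], []), ([64, -192], []), ([-384], [])], [([0, -32,
-128, -160, -64], []), ([0, 0, 64, 64], []), ([32, 384, 576, 224], []), ([0, -256, -320], []),
([-256, -640, -256], []), ([192, 448], []), ([224, 96], []), ([-192], [])], [([0, 0, 0, 0, 512,
2048, 2560, 1024], []), ([0, 0, 0, 1536, 6656, 6144, -2048, -2048], []), ([0, 0, 0, 512, -10752,
-29184, -14848], []), ([0, 0, -6144, -38912, -61952, -7168, 13312], []), ([0, 0, -7680, 9216,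
95744, 67072], []), ([0, 7680, 82432, 206336, 86016, -33792], []), ([0, 11776, 28160, -119808,
-140800], []), ([-3072, -74752, -303616, -227328, 41984], []), ([-5120, -51200, 38912, 153088],
[]), ([24576, 205312, 266240, -25600], []), ([22528, 29184, -83968], []), ([-52224, -146432,
6144], []), ([-17408, 18432], []), ([30720], [])], [([0, 0, 0, 0, 0, 768, 2304, 1024, -1024], []),
([0, 0, 0, 0, 768, 3328, 256, -4608], []), ([0, 0, 0, 1536, 256, -19968, -22272, 6656], []), ([0,
0, 0, -768, -24320, -22016, 28416], []), ([0, 0, -6144, -19200, 45568, 107776, -16896], []), ([0,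
0, -5376, 56576, 107776, -68352], []), ([0, 7680, 54016, -10240, -223488, 20992], []), ([0, 9984,
-45312, -197888, 80640], []), ([-3072, -55296, -72448, 229120, -12800], []), ([-4608, 1536,
163840, -46848], []), ([19456, 79360, -113664, 3072], []), ([8192, -56576, 10752], []), ([-24576,
21504], []), ([4608], [])], [([0, 0, 0, -64, -256, -192, 128], []), ([0, 0, 0, -128, 0, 640], []),
([0, 0, 256, 1536, 2240, -832], []), ([0, 0, 512, 384, -3968], []), ([0, -320, -3328, -8320,
2112], []), ([0, -640, -1536, 9600], []), ([128, 3072, 13632, -2624], []), ([256, 1920, -11392],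
[]), ([-1024, -10304, 1600], []), ([-768, 6656], []), ([2944, -384], []), ([-1536], [])], [([0, 0,
0, 0, 3072, 8192, 4096], []), ([0, 0, 0, 0, 5120, 3072, 2048], []), ([0, 0, 0, -15360, -54272,
-28672], []), ([0, 0, 0, -25600, -16384, -13312], []), ([0, 0, 27648, 140288, 83968], []), ([0, 0,
46080, 32768, 33792], []), ([0, -21504, -177152, -133120], []), ([0, -35840, -30720, -41984], []),
([6144, 109568, 120832], []), ([10240, 13312, 25600], []), ([-26624, -59392], []), ([-2048,
-6144], []), ([12288], [])], [([0, 0, 0, 0, -512, 0, 2944, 1792], []), ([0, 0, 0, 0, 512, 6528,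
4608], []), ([0, 0, 0, 2560, 7680, -8832, -11648], []), ([0, 0, 0, -2560, -31104, -27264], []),
([0, 0, -4608, -38400, -12160, 29568], []), ([0, 0, 4608, 51072, 62592], []), ([0, 3584, 69120,
78464, -36736], []), ([0, -3584, -31872, -70272], []), ([-1024, -53760, -118272, 22400], []),
([1024, 2304, 38784], []), ([15360, 76288, -5376], []), ([3072, -8448], []), ([-18432], [])],
[([0, 0, 0, 32, 64, -32, 64], []), ([0, 0, 0, 64, -416, -96], []), ([0, 0, -128, -128, 960, -320],
[]), ([0, 0, -256, 2368, 480], []), ([0, 160, -192, -4416, 576], []), ([0, 320, -4896, -864], []),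
([-64, 512, 7936, -448], []), ([-128, 4352, 672], []), ([-256, -6304, 128], []), ([-1408, -192],
[]), ([1856], [])]], [[], [], [([0, 0, 0, 0, -16384, -114688, -286720, -294912, -98304], []), ([0,
0, 0, 0, -40960, -188416, -221184, 0, 32768], []), ([0, 0, 0, 81920, 729088, 2236416, 2768896,
1048576], []), ([0, 0, 0, 204800, 1171456, 1646592, 114688, -262144], []), ([0, 0, -147456,
-1810432, -7151616, -10584064, -4579328], []), ([0, 0, -368640, -2842624, -4734976, -598016,
860160], []), ([0, 114688, 2203648, 12017664, 21422080, 10690560], []), ([0, 286720, 3383296,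
6619136, 1007616, -1482752], []), ([-32768, -1318912, -11206656, -24862720, -14491648], []),
([-81920, -1982464, -4595712, -286720, 1417216], []), ([311296, 5505024, 16556032, 11460608], []),
([458752, 1368064, -925696, -712704], []), ([-1114112, -5840896, -4915200], []), ([-81920, 983040,
147456], []), ([835584, 884736], []), ([-294912], [])], [([0, 0, 0, 0, 0, 0, 16384, 73728, 98304,
32768], []), ([0, 0, 0, 0, -16384, -81920, -40960, 196608, 163840], []), ([0, 0, 0, 0, -40960,
-172032, -303104, -475136, -262144], []), ([0, 0, 0, 81920, 532480, 630784, -999424, -1212416],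
[]), ([0, 0, 0, 204800, 712704, 155648, 557056, 860160], []), ([0, 0, -147456, -1351680, -2924544,
1703936, 3661824], []), ([0, 0, -368640, -1499136, 1294336, 761856, -1482752], []), ([0, 114688,
1679360, 6250496, -860160, -5791744], []), ([0, 286720, 1695744, -3530752, -2498560, 1417216],
[]), ([-32768, -1024000, -6897664, -450560, 5070848], []), ([-81920, -983040, 4268032, 2416640,
-712704], []), ([245760, 3833856, 335872, -2334720], []), ([229376, -2596864, -1007616, 147456],
[]), ([-851968, 221184, 442368], []), ([638976, 147456], []), ([-147456], [])], [([0, 0, 0, 0, 0,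
1536, 6656, 8192, 2048], []), ([0, 0, 0, 0, 512, 8704, 17920, 5120], []), ([0, 0, 0, 0, -6656,
-27648, -46592, -13312], []), ([0, 0, 0, -2560, -41472, -94208, -30208], []), ([0, 0, 0, 8704,
38912, 98816, 33792], []), ([0, 0, 4608, 68096, 173568, 69120], []), ([0, 0, -1536, -31744,
-92672, -41984], []), ([0, -3584, -42496, -113152, -77312], []), ([0, -4096, 38400, 28160, 25600],
[]), ([1024, 3072, -28672, 42496], []), ([2048, -38912, 10240, -6144], []), ([4096, 66048, -9216],
[]), ([14336, -6144], []), ([-21504], [])], [([0, 0, 0, 0, 8192, 61440, 147456, 135168, 40960],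
[]), ([0, 0, 0, 0, 32768, 151552, 176128, 49152], []), ([0, 0, 0, -40960, -233472, -647168,
-786432, -307200], []), ([0, 0, 0, -163840, -724992, -987136, -290816], []), ([0, 0, 73728,
184320, 540672, 1585152, 942080], []), ([0, 0, 294912, 1200128, 2183168, 655360], []), ([0,
-57344, 233472, 1458176, -897024, -1515520], []), ([0, -229376, -765952, -2519040, -688128], []),
([16384, -393216, -3358720, -1228800, 1351680], []), ([65536, 73728, 1687552, 303104], []),
([147456, 2531328, 2174976, -634880], []), ([65536, -671744, -4096], []), ([-671744, -1228800,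
122880], []), ([131072, -24576], []), ([245760], [])], [([0, 0, 0, 0, 0, -8192, -20480, -4096,
8192], []), ([0, 0, 0, 0, 8192, -28672, -139264, -139264], []), ([0, 0, 0, 0, 81920, 143360,
-61440, -45056], []), ([0, 0, 0, -40960, 307200, 1236992, 1179648], []), ([0, 0, 0, -278528,
-225280, 471040, 81920], []), ([0, 0, 73728, -1077248, -4456448, -4050944], []), ([0, 0, 425984,
-307200, -1077248, -32768], []), ([0, -57344, 1675264, 8339456, 7229440], []), ([0, -303104,
1146880, 835584, -65536], []), ([16384, -1204224, -8560640, -7090176], []), ([81920, -1064960,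
253952, 77824], []), ([327680, 4579328, 3633152], []), ([327680, -663552, -24576], []), ([-999424,
-761856], []), ([245760], [])], [([0, 0, 0, 0, 0, -1024, -3328, -2560], []), ([0, 0, 0, 0, -1024,
-6400, -7168], []), ([0, 0, 0, 0, -2048, 4864, 16640], []), ([0, 0, 0, 5120, 24832, 42752], []),
([0, 0, 0, 26624, 44288, -42240], []), ([0, 0, -9216, -21760, -99072], []), ([0, 0, -57344,
-159488, 52480], []), ([0, 7168, -19712, 112384], []), ([0, 48128, 214016, -32000], []), ([-2048,
37376, -62720], []), ([-14336, -131072, 7680], []), ([-14336, 13824], []), ([30720], [])]]], [[],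
[], [], [], [], [[], [([0, 0, -16, -32], []), ([0, 0, -32], []), ([0, 48, 144], []), ([0, 96],
[]), ([-32, -208], []), ([-64], []), ([96], [])], [([0, 0, 0, 0, -128, -384, 0, 512], []), ([0, 0,
0, 128, -640, -1664, 256], []), ([0, 0, 0, 896, 2304, 2688, -3328], []), ([0, 0, -512, 4608,
16384, 128], []), ([0, 0, -2176, -2432, -16512, 8448], []), ([0, 640, -11392, -56576, -5248], []),
([0, 2176, -5632, 40704, -10496], []), ([-256, 11520, 89344, 12928], []), ([-768, 11264, -51072,
6400], []), ([-4096, -66176, -11904], []), ([-5120, 32640, -1536], []), ([18688, 3840], []),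
([-8448], [])], [([0, 0, 0, 0, 0, 0, 512, 1024], []), ([0, 0, 0, 0, -256, 256, 2560], []), ([0, 0,
0, 256, -1024, -3072, -6656], []), ([0, 0, 0, 2048, -1024, -13056], []), ([0, 0, -1024, 7680,
16896, 16896], []), ([0, 0, -5376, 6400, 23296], []), ([0, 1280, -19456, -57088, -20992], []),
([0, 5632, -20992, -16128], []), ([-512, 19968, 93184, 12800], []), ([-2048, 25600, 1792], []),
([-7168, -70400, -3072], []), ([-10240, 1536], []), ([19968], [])], [([0, 0, 0, 0, 64, 128], []),
([0, 0, 0, 0, 128], []), ([0, 0, 0, -384, -960], []), ([0, 0, 0, -768], []), ([0, 0, 832, 2816],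
[]), ([0, 0, 1664], []), ([0, -768, -4032], []), ([0, -1536], []), ([256, 2816], []), ([512], []),
([-768], [])], [([0, 0, 0, 0, 0, -64, -128], []), ([0, 0, 0, 64, 128, -128], []), ([0, 0, 0, 0,
64, 832], []), ([0, 0, -256, -896, 768], []), ([0, 0, 0, 960, -2112], []), ([0, 320, 2176, -1856],
[]), ([0, 0, -2880, 2624], []), ([-128, -2176, 2304], []), ([0, 2944, -1600], []), ([768, -1472],
[]), ([-1024, 384], []), ([384], [])], [([], []), ([], []), ([0, 0, 0, 128, 128, -256], []), ([0,
0, 0, 128, -512], []), ([0, 0, -512, -1152, 1408], []), ([0, 0, -512, 2432], []), ([0, 640, 3200,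
-2816], []), ([0, 640, -4096], []), ([-256, -3456, 2432], []), ([-256, 2944], []), ([1280, -768],
[]), ([-768], [])], []], [[([0, 0, 32, 64], []), ([0, 0, 64], []), ([0, -96, -288], []), ([0,
-192], []), ([64, 416], []), ([128], []), ([-192], [])], [], [([0, 0, 0, -128, -1024, -2944,
-3072, -512], []), ([0, 0, 0, 0, -3456, -8320, -1792], []), ([0, 0, 512, 3456, 8448, 20096, 3328],
[]), ([0, 0, 0, 13824, 53504, 10880], []), ([0, -640, -2560, 8448, -57088, -8448], []), ([0, 0,
-17280, -138880, -25728], []), ([256, -1152, -50176, 94464, 10496], []), ([0, 6912, 183296,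
29824], []), ([1280, 55936, -97280, -6400], []), ([0, -122368, -17024], []), ([-19712, 57472,
1536], []), ([32768, 3840], []), ([-14592], [])], [([0, 0, 0, 0, 128, -128, -1536, -1536], []),
([0, 0, 0, -384, -1408, -3712, -3840], []), ([0, 0, 0, -1664, -5632, -640, 9984], []), ([0, 0,
1536, 3072, 5888, 21632], []), ([0, 0, 5248, 21888, 35712, -25344], []), ([0, -1920, 3200, 31488,
-46208], []), ([0, -6016, -22272, -103936, 31488], []), ([768, -9984, -94208, 46720], []), ([2304,
2048, 127104, -19200], []), ([5120, 88960, -22144], []), ([4096, -72832, 4608], []), ([-28416,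
3840], []), ([16128], [])], [([0, 0, 0, 0, 128, 256], []), ([0, 0, 0, 128, 512], []), ([0, 0, 0,
-384, -1664], []), ([0, 0, -512, -2688], []), ([0, 0, 128, 4224], []), ([0, 640, 5120], []), ([0,
384, -5248], []), ([-256, -4224], []), ([-256, 3200], []), ([1280], []), ([-768], [])], [([0, 0,
0, -64, -256, -448, -384], []), ([0, 0, 0, 128, 256, -384], []), ([0, 0, 256, 1536, 1984, 2496],
[]), ([0, 0, -512, -2176, 1920], []), ([0, -320, -3328, -2432, -6336], []), ([0, 640, 5888,
-3456], []), ([128, 3072, -448, 7872], []), ([-256, -6272, 2688], []), ([-1024, 2496, -4800], []),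
([2304, -768], []), ([-1152, 1152], [])], [([0, 0, 0, 0, 0, -64, -128], []), ([0, 0, 0, -192,
-512, -384], []), ([0, 0, 0, -128, 576, 832], []), ([0, 0, 768, 3328, 2432], []), ([0, 0, 512,
-1984, -2112], []), ([0, -960, -7680, -6080], []), ([0, -640, 3264, 2624], []), ([384, 7424,
7552], []), ([256, -2560, -1600], []), ([-2560, -4672], []), ([768, 384], []), ([1152], [])], []],
[[([0, 0, 0, 0, -256, -512], []), ([0, 0, 128, -128, -1280], []), ([0, -128, 512, 768, 1792], []),
([0, -640, 128, 2688], []), ([128, -2304, -5632, -2048], []), ([512, -2560, -1024], []), ([1792,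
10112, 768], []), ([2560, -384], []), ([-4992], [])], [([0, 0, -64, -192, 0, 256], []), ([0, 64,
-320, -832, 128], []), ([0, 256, 576, 1344, -896], []), ([-64, 1344, 5696, 448], []), ([-192, 896,
-4224, 1024], []), ([-1024, -9536, -1536], []), ([-1280, 4992, -384], []), ([4672, 960], []),
([-2112], [])], [([0, 0, 0, 0, -2048, -8192, -7680, 2048, 2048], []), ([0, 0, 0, 0, -6144, -9728,
4096, -2048], []), ([0, 0, 0, 10240, 45056, 40448, -56320, -16384], []), ([0, 0, 0, 30720, 36352,
-107520, 22528], []), ([0, 0, -18432, -94208, -105984, 365568, 53760], []), ([0, 0, -55296,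
-26112, 588800, -93696], []), ([0, 14336, 94208, 205312, -1086464, -92672], []), ([0, 43008,
-42496, -1395712, 194048], []), ([-4096, -45056, -269312, 1745920, 88576], []), ([-12288, 66560,
1668096, -214528], []), ([8192, 190464, -1572864, -44544], []), ([-24576, -991232, 121344], []),
([-53248, 749568, 9216], []), ([233472, -27648], []), ([-147456], [])], [([0, 0, 0, 0, 0, 8192,
36864, 49152, 16384], []), ([0, 0, 0, 0, -4096, 28672, 114688, 81920], []), ([0, 0, 0, 0, -69632,
-233472, -303104, -131072], []), ([0, 0, 0, 20480, -184320, -745472, -606208], []), ([0, 0, 0,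
217088, 651264, 802816, 430080], []), ([0, 0, -36864, 462848, 2002944, 1830912], []), ([0, 0,
-315392, -1069056, -1339392, -741376], []), ([0, 28672, -569344, -2904064, -2895872], []), ([0,
217088, 1081344, 1716224, 708608], []), ([-8192, 344064, 2428928, 2535424], []), ([-57344,
-614400, -1626112, -356352], []), ([-81920, -1118208, -1167360], []), ([147456, 921600, 73728],
[]), ([221184, 221184], []), ([-221184], [])], [([0, 0, 0, 0, 128, 896, 1536, 512], []), ([0, 0,
0, 128, 2688, 7040, 3328], []), ([0, 0, 0, -128, 1024, -4736, -3328], []), ([0, 0, -512, -12288,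
-38656, -21888], []), ([0, 0, -896, -17024, -2688, 8448], []), ([0, 640, 19584, 81664, 56704],
[]), ([0, 1664, 33536, 22528, -10496], []), ([-256, -13056, -84480, -72576], []), ([-768, -24576,
-24960, 6400], []), ([3072, 43392, 45952], []), ([6144, 7552, -1536], []), ([-8960, -11520], []),
([768], [])], [([0, 0, 0, 0, 0, 768, 2304, 1024, -1024], []), ([0, 0, 0, 0, 768, 3328, 256,
-4608], []), ([0, 0, 0, 1536, 256, -19968, -22272, 6656], []), ([0, 0, 0, -768, -24320, -22016,
28416], []), ([0, 0, -6144, -19200, 45568, 107776, -16896], []), ([0, 0, -5376, 56576, 107776,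
-68352], []), ([0, 7680, 54016, -10240, -223488, 20992], []), ([0, 9984, -45312, -197888, 80640],
[]), ([-3072, -55296, -72448, 229120, -12800], []), ([-4608, 1536, 163840, -46848], []), ([19456,
79360, -113664, 3072], []), ([8192, -56576, 10752], []), ([-24576, 21504], []), ([4608], [])],
[([0, 0, 0, 0, 0, 0, 0, -1024, -2048], []), ([0, 0, 0, 0, 0, 1536, 1536, -5120], []), ([0, 0, 0,
0, 1024, 3584, -1024, 13312], []), ([0, 0, 0, 1536, -6144, -24576, 26112], []), ([0, 0, 0, -2048,
-31744, 14848, -33792], []), ([0, 0, -6144, 512, 91648, -46592], []), ([0, 0, -3072, 89600,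
-15360, 41984], []), ([0, 7680, 25600, -134656, 32256], []), ([0, 8192, -102400, -16896, -25600],
[]), ([-3072, -35840, 81920, -3584], []), ([-4096, 45056, 31744, 6144], []), ([14336, -12800,
-3072], []), ([-4096, -12288], []), ([-3072], [])], [([0, 0, 0, 0, 0, -192, -384], []), ([0, 0, 0,
-64, -256, -640], []), ([0, 0, 0, -128, 704, 2496], []), ([0, 0, 256, 1536, 3968], []), ([0, 0,
512, -64, -6336], []), ([0, -320, -3328, -9792], []), ([0, -640, -2496, 7872], []), ([128, 3072,
12160], []), ([256, 3328, -4800], []), ([-1024, -7616], []), ([-1280, 1152], []), ([1920], [])]]],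
[[], [], [], [], [], [], [[([0, 0, 32, 64], []), ([0, 32, 128], []), ([0, 0, -224], []), ([-32,
-288], []), ([-32, 256], []), ([160], []), ([-96], [])], [([0, -16, -48, -32], []), ([0, -32,
-32], []), ([16, 112, 112], []), ([32, 64], []), ([-64, -128], []), ([-32], []), ([48], [])],
[([0, 0, 0, -256, -1024, -1280, -512], []), ([0, 0, 0, 256, 1280, 1536, 1024], []), ([0, 0, 1024,
5632, 6912, 4352], []), ([0, 0, -1024, -8704, -7936, -6656], []), ([0, -1280, -11264, -10752,
-13568], []), ([0, 1280, 20736, 14080, 16896], []), ([512, 9728, 256, 19712], []), ([-512, -20480,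
-8960, -20992], []), ([-3072, 10496, -13568], []), ([7168, -256, 12800], []), ([-5632, 3584], []),
([1536, -3072], [])], [([0, 0, 0, 128, 768, 1664, 1536, 512], []), ([0, 0, 0, 256, 1408, 2176,
768], []), ([0, 0, -512, -2432, -4864, -7040, -3328], []), ([0, 0, -1024, -4096, -9984, -4224],
[]), ([0, 640, 1280, -3584, 8192, 8448], []), ([0, 1280, 896, 16256, 8832], []), ([-256, 1664,
24576, 6656, -10496], []), ([-512, 4864, -11776, -8832], []), ([-1280, -27264, -21248, 6400], []),
([-3072, 3840, 4224], []), ([9472, 15744, -1536], []), ([-512, -768], []), ([-3840], [])], [([0,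
0, 0, -64, -192, -128], []), ([0, 0, 0, -128, -128], []), ([0, 0, 256, 1024, 832], []), ([0, 0,
512, 640], []), ([0, -320, -1984, -2112], []), ([0, -640, -1152], []), ([128, 1664, 2624], []),
([256, 896], []), ([-512, -1600], []), ([-256], []), ([384], [])], [([0, 0, 0, -128, -384, -256],
[]), ([0, 0, 0, 0, 512, 512], []), ([0, 0, 512, 2560, 2176], []), ([0, 0, 0, -2816, -3328], []),
([0, -640, -6016, -6784], []), ([0, 0, 5632, 8448], []), ([256, 5888, 9856], []), ([0, -4864,
-10496], []), ([-2048, -6784], []), ([1536, 6400], []), ([1792], []), ([-1536], [])], [([0, 0, 0,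
64, 256, 320, 128], []), ([0, 0, 0, 0, -128, -128], []), ([0, 0, -256, -1536, -2112, -832], []),
([0, 0, 0, 896, 1024], []), ([0, 320, 3328, 5376, 2112], []), ([0, 0, -2176, -3072], []), ([-128,
-3072, -6592, -2624], []), ([0, 2176, 4352], []), ([1024, 3904, 1600], []), ([-768, -2944], []),
([-896, -384], []), ([768], [])], []], [[([0, 0, 0, 256, 768, 512], []), ([0, 128, 1024, 2688,
1792], []), ([0, 384, 2432, 1280, -1792], []), ([-128, -768, -3072, -5504], []), ([-384, -2944,
-7296, 2048], []), ([-256, -2048, 5632], []), ([256, 7168, -768], []), ([2432, -1920], []),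
([-1920], [])], [([0, -64, -384, -832, -768, -256], []), ([0, -128, -704, -1088, -384], []), ([64,
64, -64, 1216, 896], []), ([128, -64, 1728, 960], []), ([320, 3264, 1088, -1024], []), ([768,
-768, -768], []), ([-2368, -2496, 384], []), ([128, 192], []), ([960], [])], [([0, 0, 0, 0,
-12288, -57344, -81920, -32768], []), ([0, 0, 0, 0, -45056, -118784, -65536, -16384], []), ([0, 0,
0, 61440, 335872, 622592, 262144], []), ([0, 0, 0, 225280, 765952, 450560, 131072], []), ([0, 0,
-110592, -761856, -1978368, -909312], []), ([0, 0, -405504, -1929216, -1265664, -430080], []),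
([0, 86016, 843776, 3371008, 1802240], []), ([0, 315392, 2379776, 1871872, 741376], []), ([-24576,
-458752, -3239936, -2228224], []), ([-90112, -1441792, -1544192, -708608], []), ([98304, 1658880,
1720320], []), ([344064, 675840, 356352], []), ([-352256, -761856], []), ([-122880, -73728], []),
([147456], [])], [([0, 0, 0, 0, 2048, 4096, -11776, -30720, -14336], []), ([0, 0, 0, 0, 2048,
-30208, -94208, -51200], []), ([0, 0, 0, -10240, -61440, -78336, 115712, 114688], []), ([0, 0, 0,
-10240, 89600, 506880, 366592], []), ([0, 0, 18432, 241664, 696832, 91136, -376320], []), ([0, 0,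
18432, 35328, -934912, -1064448], []), ([0, -14336, -397312, -1736192, -1127424, 648704], []),
([0, -14336, -341504, 521216, 1607168], []), ([4096, 294912, 1987584, 2360320, -620032], []),
([4096, 369664, 390144, -1332736], []), ([-81920, -1091584, -2318336, 311808], []), ([-122880,
-573440, 576000], []), ([233472, 1130496, -64512], []), ([184320, -101376], []), ([-221184], [])],
[([0, 0, 0, -128, -512, -384, 0, -512], []), ([0, 0, 0, -512, 640, 3968, 256], []), ([0, 0, 512,
1408, 1280, -6016, 3328], []), ([0, 0, 2048, -5632, -33536, -2432], []), ([0, -640, 0, -1280,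
40704, -8448], []), ([0, -2560, 15488, 106368, 8064], []), ([256, -2176, 1024, -107776, 10496],
[]), ([1024, -16640, -159744, -12160], []), ([1280, -1408, 139776, -6400], []), ([6144, 114688,
8576], []), ([768, -88960, 1536], []), ([-31744, -2304], []), ([22272], [])], [([0, 0, 0, 0, -512,
-2048, -2560, -1024], []), ([0, 0, 0, -1536, -6656, -6144, 2048, 2048], []), ([0, 0, 0, -512,
10752, 29184, 14848], []), ([0, 0, 6144, 38912, 61952, 7168, -13312], []), ([0, 0, 7680, -9216,
-95744, -67072], []), ([0, -7680, -82432, -206336, -86016, 33792], []), ([0, -11776, -28160,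
119808, 140800], []), ([3072, 74752, 303616, 227328, -41984], []), ([5120, 51200, -38912,
-153088], []), ([-24576, -205312, -266240, 25600], []), ([-22528, -29184, 83968], []), ([52224,
146432, -6144], []), ([17408, -18432], []), ([-30720], [])], [([0, 0, 0, 0, 0, -768, -2304, -1024,
1024], []), ([0, 0, 0, 0, -768, -3328, -256, 4608], []), ([0, 0, 0, -1536, -256, 19968, 22272,
-6656], []), ([0, 0, 0, 768, 24320, 22016, -28416], []), ([0, 0, 6144, 19200, -45568, -107776,
16896], []), ([0, 0, 5376, -56576, -107776, 68352], []), ([0, -7680, -54016, 10240, 223488,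
-20992], []), ([0, -9984, 45312, 197888, -80640], []), ([3072, 55296, 72448, -229120, 12800], []),
([4608, -1536, -163840, 46848], []), ([-19456, -79360, 113664, -3072], []), ([-8192, 56576,
-10752], []), ([24576, -21504], []), ([-4608], [])], [([0, 0, 0, 64, 256, 192, -128], []), ([0, 0,
0, 128, 0, -640], []), ([0, 0, -256, -1536, -2240, 832], []), ([0, 0, -512, -384, 3968], []), ([0,
320, 3328, 8320, -2112], []), ([0, 640, 1536, -9600], []), ([-128, -3072, -13632, 2624], []),
([-256, -1920, 11392], []), ([1024, 10304, -1600], []), ([768, -6656], []), ([-2944, 384], []),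
([1536], [])]]], [[], [], [], [], [], [], [], [[([0, 0, 0, -2048, -9216, -12288, -4096], []), ([0,
0, 1024, -7168, -28672, -20480], []), ([0, 0, 11264, 30720, 38912, 20480], []), ([0, -2048, 24576,
100352, 90112], []), ([0, -16384, -52224, -59392, -37888], []), ([1024, -27648, -142336, -146432],
[]), ([7168, 49152, 78848, 30720], []), ([10240, 98304, 104448], []), ([-18432, -73728, -9216],
[]), ([-27648, -27648], []), ([27648], [])], [([0, 0, -512, -1536, 512, 4096, 2048], []), ([0, 0,
-1024, 2560, 12288, 6144], []), ([0, 1024, 8704, 16384, -9216, -10240], []), ([0, 2048, 1024,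
-39936, -24576], []), ([-512, -12800, -52224, -1536, 18944], []), ([-1024, -9728, 46080, 35328],
[]), ([5632, 53248, 18944, -15360], []), ([6144, -21504, -21504], []), ([-17920, -16896, 4608],
[]), ([3072, 4608], []), ([4608], [])], [([0, 0, 0, 0, -16384, -155648, -540672, -860160, -622592,
-163840], []), ([0, 0, 0, 0, -98304, -679936, -1548288, -1343488, -360448], []), ([0, 0, 0, 81920,
548864, 1990656, 4341760, 4374528, 1474560], []), ([0, 0, 0, 491520, 3235840, 8372224, 8732672,
2686976], []), ([0, 0, -147456, -253952, -319488, -5267456, -11780096, -5611520], []), ([0, 0,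
-884736, -5300224, -15679488, -22306816, -8134656], []), ([0, 114688, -974848, -7544832, -9527296,
13508608, 11714560], []), ([0, 688128, 3284992, 9469952, 28139520, 12746752], []), ([-32768,
1294336, 12754944, 34717696, -417792, -14499840], []), ([-196608, -212992, 5169152, -17555456,
-10747904], []), ([-458752, -8306688, -41377792, -16015360, 10649600], []), ([-327680, -8601600,
4120576, 4374528], []), ([1966080, 23019520, 17735680, -4300800], []), ([2818048, 409600,
-417792], []), ([-5046272, -8257536, 737280], []), ([-196608, -147456], []), ([1474560], [])],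
[([0, 0, 0, 0, 0, 16384, 73728, 90112, 0, -32768], []), ([0, 0, 0, 0, -16384, 57344, 475136,
851968, 524288], []), ([0, 0, 0, 0, -196608, -548864, -16384, 868352, 229376], []), ([0, 0, 0,
81920, -729088, -4448256, -7897088, -5373952], []), ([0, 0, 0, 720896, 827392, -4128768, -7135232,
-598016], []), ([0, 0, -147456, 2727936, 15966208, 31465472, 22953984], []), ([0, 0, -1146880,
1548288, 19857408, 23404544, 622592], []), ([0, 114688, -4382720, -28614656, -70246400,
-53092352], []), ([0, 835584, -5226496, -41459712, -38592512, 65536], []), ([-32768, 3211264,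
27402240, 95117312, 71999488], []), ([-229376, 4800512, 44875776, 32202752, -704512], []),
([-884736, -13434880, -77963264, -57384960], []), ([-1474560, -24690688, -10305536, 565248], []),
([2654208, 35651584, 24944640], []), ([5472256, -1916928, -147456], []), ([-6979584, -4571136],
[]), ([1474560], [])], [([0, 0, 0, 0, 0, 2048, 10752, 18432, 10240], []), ([0, 0, 0, 0, 2048,
20992, 53248, 38912], []), ([0, 0, 0, 0, 8192, 17920, -44032, -81920], []), ([0, 0, 0, -10240,
-68096, -242688, -280576], []), ([0, 0, 0, -73728, -306688, -234496, 268800], []), ([0, 0, 18432,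
4608, 257024, 821760], []), ([0, 0, 151552, 795136, 1195008, -463360], []), ([0, -14336, 184832,
361472, -1253888], []), ([0, -124928, -885760, -2198528, 442880], []), ([4096, -216064, -998400,
1053184], []), ([36864, 458752, 2043904, -222720], []), ([73728, 778240, -462336], []), ([-90112,
-964608, 46080], []), ([-208896, 82944], []), ([184320], [])], [([0, 0, 0, 0, 8192, 57344, 143360,
147456, 49152], []), ([0, 0, 0, 0, 20480, 94208, 110592, 0, -16384], []), ([0, 0, 0, -40960,
-364544, -1118208, -1384448, -524288], []), ([0, 0, 0, -102400, -585728, -823296, -57344, 131072],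
[]), ([0, 0, 73728, 905216, 3575808, 5292032, 2289664], []), ([0, 0, 184320, 1421312, 2367488,
299008, -430080], []), ([0, -57344, -1101824, -6008832, -10711040, -5345280], []), ([0, -143360,
-1691648, -3309568, -503808, 741376], []), ([16384, 659456, 5603328, 12431360, 7245824], []),
([40960, 991232, 2297856, 143360, -708608], []), ([-155648, -2752512, -8278016, -5730304], []),
([-229376, -684032, 462848, 356352], []), ([557056, 2920448, 2457600], []), ([40960, -491520,
-73728], []), ([-417792, -442368], []), ([147456], [])], [([0, 0, 0, 0, 0, 0, -8192, -36864,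
-49152, -16384], []), ([0, 0, 0, 0, 8192, 40960, 20480, -98304, -81920], []), ([0, 0, 0, 0, 20480,
86016, 151552, 237568, 131072], []), ([0, 0, 0, -40960, -266240, -315392, 499712, 606208], []),
([0, 0, 0, -102400, -356352, -77824, -278528, -430080], []), ([0, 0, 73728, 675840, 1462272,
-851968, -1830912], []), ([0, 0, 184320, 749568, -647168, -380928, 741376], []), ([0, -57344,
-839680, -3125248, 430080, 2895872], []), ([0, -143360, -847872, 1765376, 1249280, -708608], []),
([16384, 512000, 3448832, 225280, -2535424], []), ([40960, 491520, -2134016, -1208320, 356352],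
[]), ([-122880, -1916928, -167936, 1167360], []), ([-114688, 1298432, 503808, -73728], []),
([425984, -110592, -221184], []), ([-319488, -73728], []), ([73728], [])], [([0, 0, 0, 0, 0, -768,
-3328, -4096, -1024], []), ([0, 0, 0, 0, -256, -4352, -8960, -2560], []), ([0, 0, 0, 0, 3328,
13824, 23296, 6656], []), ([0, 0, 0, 1280, 20736, 47104, 15104], []), ([0, 0, 0, -4352, -19456,
-49408, -16896], []), ([0, 0, -2304, -34048, -86784, -34560], []), ([0, 0, 768, 15872, 46336,
20992], []), ([0, 1792, 21248, 56576, 38656], []), ([0, 2048, -19200, -14080, -12800], []),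
([-512, -1536, 14336, -21248], []), ([-1024, 19456, -5120, 3072], []), ([-2048, -33024, 4608],
[]), ([-7168, 3072], []), ([10752], [])]]]]

/-- linear forms -/
def V : List (List Tb) := [[[([1], [])], [], [], [], [], [], [], []], [[], [([1], [])], [], [], [], [], [], []], [[], [],
[([0, 0, 4], []), ([], []), ([0, -12], []), ([], []), ([8], [])], [], [([0, 0, 8, 8, -16], []),
([0, -8, 40, 8], []), ([0, -16, -96, 32], []), ([8, -176, -48], []), ([8, 176, -16], []), ([136,
40], []), ([-88], [])], [], [], [([0, 0, 0, 4], []), ([0, -4], []), ([0, 8, -8], []), ([4, -4],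
[]), ([-8, 4], []), ([4], [])]], [[], [], [], [([0, 4, 4], []), ([], []), ([-4, -8], []), ([],
[]), ([4], [])], [([0, 8, 32, 40, 16], []), ([0, 0, 24, 8], []), ([-8, 32, -8, -32], []), ([0,
-56, -16], []), ([-64, -72, 16], []), ([32, 8], []), ([40], [])], [], [], [([0, 4, 8, 4], []),
([0, -8, -8], []), ([-4, -12, -8], []), ([8, 16], []), ([4, 4], []), ([-8], [])]], [[], [], [([0,
0, 8, 8, -16], []), ([0, -8, 40, 8], []), ([0, -16, -96, 32], []), ([8, -176, -48], []), ([8, 176,
-16], []), ([136, 40], []), ([-88], [])], [([0, 8, 32, 40, 16], []), ([0, 0, 24, 8], []), ([-8,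
32, -8, -32], []), ([0, -56, -16], []), ([-64, -72, 16], []), ([32, 8], []), ([40], [])], [([0, 0,
128, 128, -384, -256], []), ([0, 0, 0, -896, -512], []), ([0, -256, -1280, 640, 896], []), ([0, 0,
2304, 1408], []), ([128, 2176, 256, -1024], []), ([0, -1920, -1280], []), ([-1024, -896, 384],
[]), ([512, 384], []), ([384], [])], [([0, 0, 0, -4], []), ([0, 4], []), ([0, -8, 8], []), ([-4,
4], []), ([8, -4], []), ([-4], [])], [([0, -4, -8, -4], []), ([0, 8, 8], []), ([4, 12, 8], []),
([-8, -16], []), ([-4, -4], []), ([8], [])], []], [[], [], [], [], [([0, 0, 0, -16, -32], []),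
([0, 16, 32, -32], []), ([0, 0, -32, 112], []), ([-16, -128, 96], []), ([0, 176, -128], []), ([96,
-112], []), ([-128, 48], []), ([48], [])], [([0, 0, -4], []), ([], []), ([0, 12], []), ([], []),
([-8], [])], [], [([0, 0, -8, -8, 16], []), ([0, 8, -40, -8], []), ([0, 16, 96, -32], []), ([-8,
176, 48], []), ([-8, -176, 16], []), ([-136, -40], []), ([88], [])]], [[], [], [], [], [([0, -16,
-64, -80, -32], []), ([0, 0, 32, 32], []), ([16, 192, 288, 112], []), ([0, -128, -160], []),
([-128, -320, -128], []), ([96, 224], []), ([112, 48], []), ([-96], [])], [], [([0, -4, -4], []),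
([], []), ([4, 8], []), ([], []), ([-4], [])], [([0, -8, -32, -40, -16], []), ([0, 0, -24, -8],
[]), ([8, -32, 8, 32], []), ([0, 56, 16], []), ([64, 72, -16], []), ([-32, -8], []), ([-40],
[])]], [[], [], [([0, 0, 0, 16, 32], []), ([0, -16, -32, 32], []), ([0, 0, 32, -112], []), ([16,
128, -96], []), ([0, -176, 128], []), ([-96, 112], []), ([128, -48], []), ([-48], [])], [([0, 16,
64, 80, 32], []), ([0, 0, -32, -32], []), ([-16, -192, -288, -112], []), ([0, 128, 160], []),
([128, 320, 128], []), ([-96, -224], []), ([-112, -48], []), ([96], [])], [], [([0, 0, -8, -8,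
16], []), ([0, 8, -40, -8], []), ([0, 16, 96, -32], []), ([-8, 176, 48], []), ([-8, -176, 16],
[]), ([-136, -40], []), ([88], [])], [([0, -8, -32, -40, -16], []), ([0, 0, -24, -8], []), ([8,
-32, 8, 32], []), ([0, 56, 16], []), ([64, 72, -16], []), ([-32, -8], []), ([-40], [])], [([0, 0,
-128, -128, 384, 256], []), ([0, 0, 0, 896, 512], []), ([0, 256, 1280, -640, -896], []), ([0, 0,
-2304, -1408], []), ([-128, -2176, -256, 1024], []), ([0, 1920, 1280], []), ([1024, 896, -384],
[]), ([-512, -384], []), ([-384], [])]]]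

/-- the norm form -/
def A : List (List Tb) := [[[([1], [])], [], [], [], [], [], [], []], [[], [([-4, -8], []), ([-8], []), ([12], [])], [], [],
[], [], [], []], [[], [], [([0, 0, 0, 0, 0, -4096, -11008, -5632, -1024], []), ([0, 0, 0, 0,
-2560, -26112, -30208, -5120], []), ([0, 0, 0, 0, 5376, 14848, 12288, 4096], []), ([0, 0, -512,
7680, 69632, 106496, 20480], []), ([0, 0, -6400, -22528, -16896, 3072, -6144], []), ([0, 1024,
-13824, -101888, -140800, -30720], []), ([0, 12800, 55040, 95232, -26624, 4096], []), ([-512,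
14848, 130560, 85504, 20480], []), ([-6400, -43520, -172032, 23040, -1024], []), ([-6144, -103424,
-23552, -5120], []), ([9728, 117760, -6144], []), ([31232, 2560], []), ([-27904], [])], [([0, 0,
0, 0, 0, 2048, 5120, 1024, -1024], []), ([0, 0, 0, 0, -1024, 5120, 4096, -4096], []), ([0, 0, 0,
256, -14848, -33792, -16128, 4096], []), ([0, 0, 0, 5376, -23296, -44288, 14336], []), ([0, 0,
-1280, 38400, 81920, 43776, -6144], []), ([0, 0, -16384, 29696, 106752, -18432], []), ([0, 1792,
-52736, -146176, -44800, 4096], []), ([0, 20736, -21760, -99840, 10240], []), ([-768, 39424,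
189696, 17664, -1024], []), ([-8704, 22016, 36096, -2048], []), ([-12288, -130304, -1536], []),
([-11776, -2816], []), ([33536], [])], [([0, 0, 0, 0, 0, 128, 384], []), ([0, 0, 0, 64, 256, 960],
[]), ([0, 0, 0, 64, -192, -1664], []), ([0, 0, -128, -1216, -3392], []), ([0, 0, -128, 1088,
2688], []), ([0, 64, 2688, 4416], []), ([0, 64, -3136, -1920], []), ([0, -2752, -2496], []), ([0,
3136, 512], []), ([1024, 512], []), ([-1024], [])], [], [([0, 0, 0, 0, 0, 0, 0, -1024, -2048],
[]), ([0, 0, 0, 0, 0, -512, -3584, -7168], []), ([0, 0, 0, 512, 512, -512, 1024, 9216], []), ([0,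
0, 0, 4608, 8704, 15360, 25088], []), ([0, 0, -1536, -512, -16896, -31232, -15360], []), ([0, 0,
-13824, -58880, -84992, -26112], []), ([0, 1536, -1536, 35840, 136192, 11264], []), ([0, 13824,
129536, 246272, -512], []), ([-512, 2560, -1024, -216064, -3072], []), ([-4608, -114688, -328704,
14848], []), ([-1024, -35328, 149504], []), ([35840, 203264, -6144], []), ([17920, -38400], []),
([-47616], [])], [([0, 0, 0, 0, 0, -128, -256], []), ([0, 0, 0, -128, -384, -512], []), ([0, 0, 0,
-384, 384, 2176], []), ([0, 0, 256, 1920, 4736], []), ([0, 0, 1024, 2048, -6528], []), ([0, -128,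
-2944, -13568], []), ([0, -896, -7040, 9088], []), ([0, 1664, 17280], []), ([256, 7040, -6016],
[]), ([-256, -10240], []), ([-2304, 1536], []), ([2304], [])]], [[], [], [([0, 0, 0, 0, 0, 2048,
5120, 1024, -1024], []), ([0, 0, 0, 0, -1024, 5120, 4096, -4096], []), ([0, 0, 0, 256, -14848,
-33792, -16128, 4096], []), ([0, 0, 0, 5376, -23296, -44288, 14336], []), ([0, 0, -1280, 38400,
81920, 43776, -6144], []), ([0, 0, -16384, 29696, 106752, -18432], []), ([0, 1792, -52736,
-146176, -44800, 4096], []), ([0, 20736, -21760, -99840, 10240], []), ([-768, 39424, 189696,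
17664, -1024], []), ([-8704, 22016, 36096, -2048], []), ([-12288, -130304, -1536], []), ([-11776,
-2816], []), ([33536], [])], [([0, 0, 0, 0, 0, 0, 0, 0, -1024], []), ([0, 0, 0, 0, 0, 0, 1024,
-3072], []), ([0, 0, 0, 0, -256, 512, 1792, 4096], []), ([0, 0, 0, 512, -3584, 1024, 8192], []),
([0, 0, 0, 3584, -7424, -22016, -6144], []), ([0, 0, -2048, 15872, -19456, -6144], []), ([0, 0,
-15616, 41984, 50944, 4096], []), ([0, 2560, -32256, 23552], []), ([0, 21504, -107776, -43008,
-1024], []), ([-1024, 31232, 2048, 1024], []), ([-9216, 116736, 12288], []), ([-11264, -8192],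
[]), ([-44032], [])], [([0, 0, 0, 0, 0, 0, -128], []), ([0, 0, 0, 0, 64, -192], []), ([0, 0, 0,
-64, 256, 640], []), ([0, 0, 0, -384, 704], []), ([0, 0, 256, -1856, -1152], []), ([0, 0, 832,
-704], []), ([0, -320, 4608, 896], []), ([0, -768, 64], []), ([128, -4672, -256], []), ([256,
128], []), ([1664], [])], [([0, 0, 0, 0, 0, 0, 0, 1024, 2048], []), ([0, 0, 0, 0, 0, 512, 3584,
7168], []), ([0, 0, 0, -512, -512, 512, -1024, -9216], []), ([0, 0, 0, -4608, -8704, -15360,
-25088], []), ([0, 0, 1536, 512, 16896, 31232, 15360], []), ([0, 0, 13824, 58880, 84992, 26112],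
[]), ([0, -1536, 1536, -35840, -136192, -11264], []), ([0, -13824, -129536, -246272, 512], []),
([512, -2560, 1024, 216064, 3072], []), ([4608, 114688, 328704, -14848], []), ([1024, 35328,
-149504], []), ([-35840, -203264, 6144], []), ([-17920, 38400], []), ([47616], [])], [], [([],
[]), ([], []), ([0, 0, 0, 128, 128, -256], []), ([0, 0, 0, 128, -512], []), ([0, 0, -512, -1152,
1408], []), ([0, 0, -512, 2432], []), ([0, 640, 3200, -2816], []), ([0, 640, -4096], []), ([-256,
-3456, 2432], []), ([-256, 2944], []), ([1280, -768], []), ([-768], [])]], [[], [], [([0, 0, 0, 0,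
0, 128, 384], []), ([0, 0, 0, 64, 256, 960], []), ([0, 0, 0, 64, -192, -1664], []), ([0, 0, -128,
-1216, -3392], []), ([0, 0, -128, 1088, 2688], []), ([0, 64, 2688, 4416], []), ([0, 64, -3136,
-1920], []), ([0, -2752, -2496], []), ([0, 3136, 512], []), ([1024, 512], []), ([-1024], [])],
[([0, 0, 0, 0, 0, 0, -128], []), ([0, 0, 0, 0, 64, -192], []), ([0, 0, 0, -64, 256, 640], []),
([0, 0, 0, -384, 704], []), ([0, 0, 256, -1856, -1152], []), ([0, 0, 832, -704], []), ([0, -320,
4608, 896], []), ([0, -768, 64], []), ([128, -4672, -256], []), ([256, 128], []), ([1664], [])],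
[([0, 0, 0, 0, -16], []), ([], []), ([0, 0, 0, 96], []), ([], []), ([0, 0, -208], []), ([], []),
([0, 192], []), ([], []), ([-64], [])], [([0, 0, 0, 0, 0, 128, 256], []), ([0, 0, 0, 128, 384,
512], []), ([0, 0, 0, 384, -384, -2176], []), ([0, 0, -256, -1920, -4736], []), ([0, 0, -1024,
-2048, 6528], []), ([0, 128, 2944, 13568], []), ([0, 896, 7040, -9088], []), ([0, -1664, -17280],
[]), ([-256, -7040, 6016], []), ([256, 10240], []), ([2304, -1536], []), ([-2304], [])], [([],
[]), ([], []), ([0, 0, 0, -128, -128, 256], []), ([0, 0, 0, -128, 512], []), ([0, 0, 512, 1152,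
-1408], []), ([0, 0, 512, -2432], []), ([0, -640, -3200, 2816], []), ([0, -640, 4096], []), ([256,
3456, -2432], []), ([256, -2944], []), ([-1280, 768], []), ([768], [])], []], [[], [], [], [([0,
0, 0, 0, 0, 0, 0, 1024, 2048], []), ([0, 0, 0, 0, 0, 512, 3584, 7168], []), ([0, 0, 0, -512, -512,
512, -1024, -9216], []), ([0, 0, 0, -4608, -8704, -15360, -25088], []), ([0, 0, 1536, 512, 16896,
31232, 15360], []), ([0, 0, 13824, 58880, 84992, 26112], []), ([0, -1536, 1536, -35840, -136192,
-11264], []), ([0, -13824, -129536, -246272, 512], []), ([512, -2560, 1024, 216064, 3072], []),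
([4608, 114688, 328704, -14848], []), ([1024, 35328, -149504], []), ([-35840, -203264, 6144], []),
([-17920, 38400], []), ([47616], [])], [([0, 0, 0, 0, 0, 128, 256], []), ([0, 0, 0, 128, 384,
512], []), ([0, 0, 0, 384, -384, -2176], []), ([0, 0, -256, -1920, -4736], []), ([0, 0, -1024,
-2048, 6528], []), ([0, 128, 2944, 13568], []), ([0, 896, 7040, -9088], []), ([0, -1664, -17280],
[]), ([-256, -7040, 6016], []), ([256, 10240], []), ([2304, -1536], []), ([-2304], [])], [([0, 0,
0, 0, 0, 16384, 76800, 110592, 49152, 8192], []), ([0, 0, 0, 0, 10240, 157696, 417792, 307200,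
49152], []), ([0, 0, 0, 0, -1024, 57344, -58368, -141312, -45056], []), ([0, 0, 2048, -26624,
-413696, -1415168, -1394688, -258048], []), ([0, 0, 29696, 79872, -244736, -550912, -16384,
98304], []), ([0, -4096, 92160, 790528, 2349056, 2502656, 540672], []), ([0, -59392, -288768,
-276480, 268288, 479232, -106496], []), ([2048, -145408, -1247232, -3371008, -2242560, -565248],
[]), ([29696, 260096, 652288, 1742848, -663552, 57344], []), ([69632, 989184, 3864576, 1050624,
294912], []), ([-66560, -243712, -2793472, 366592, -12288], []), ([-276480, -2443264, -253952,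
-61440], []), ([-21504, 1615872, -73728], []), ([598016, 30720], []), ([-334848], [])], [([0, 0,
0, 0, 0, -8192, -36864, -45056, -4096, 8192], []), ([0, 0, 0, 0, 4096, -28672, -98304, -24576,
40960], []), ([0, 0, 0, -1024, 65536, 237568, 363520, 157696, -45056], []), ([0, 0, 0, -23552,
156672, 695296, 475136, -196608], []), ([0, 0, 5120, -183296, -626688, -881664, -633856, 98304],
[]), ([0, 0, 75776, -230400, -1599488, -1661952, 368640], []), ([0, -7168, 312320, 1229824,
1477632, 1014784, -106496], []), ([0, -97280, 146432, 2099200, 2397184, -335872], []), ([3072,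
-295936, -1532928, -2543616, -756736, 57344], []), ([40960, -84992, -2099200, -1619968, 147456],
[]), ([109568, 916480, 3036160, 240640, -12288], []), ([40960, 1412096, 467968, -24576], []),
([-187392, -1809408, -18432], []), ([-409600, -33792], []), ([402432], [])], [([0, 0, 0, 0, 0,
-512, -2560, -3072], []), ([0, 0, 0, -256, -1536, -6912, -10752], []), ([0, 0, 0, -768, -1792,
2048, 17920], []), ([0, 0, 512, 6144, 27904, 51968], []), ([0, 0, 1536, 7168, 5376, -41472], []),
([0, -256, -11776, -62464, -97536], []), ([0, -768, -11008, 10496, 47616], []), ([0, 11264, 89344,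
88320], []), ([0, 10240, -44800, -27136], []), ([-4096, -68352, -38144], []), ([-4096, 41728,
6144], []), ([20480, 6144], []), ([-12288], [])]], [[], [], [([0, 0, 0, 0, 0, 0, 0, -1024, -2048],
[]), ([0, 0, 0, 0, 0, -512, -3584, -7168], []), ([0, 0, 0, 512, 512, -512, 1024, 9216], []), ([0,
0, 0, 4608, 8704, 15360, 25088], []), ([0, 0, -1536, -512, -16896, -31232, -15360], []), ([0, 0,
-13824, -58880, -84992, -26112], []), ([0, 1536, -1536, 35840, 136192, 11264], []), ([0, 13824,
129536, 246272, -512], []), ([-512, 2560, -1024, -216064, -3072], []), ([-4608, -114688, -328704,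
14848], []), ([-1024, -35328, 149504], []), ([35840, 203264, -6144], []), ([17920, -38400], []),
([-47616], [])], [], [([], []), ([], []), ([0, 0, 0, -128, -128, 256], []), ([0, 0, 0, -128, 512],
[]), ([0, 0, 512, 1152, -1408], []), ([0, 0, 512, -2432], []), ([0, -640, -3200, 2816], []), ([0,
-640, 4096], []), ([256, 3456, -2432], []), ([256, -2944], []), ([-1280, 768], []), ([768], [])],
[([0, 0, 0, 0, 0, -8192, -36864, -45056, -4096, 8192], []), ([0, 0, 0, 0, 4096, -28672, -98304,
-24576, 40960], []), ([0, 0, 0, -1024, 65536, 237568, 363520, 157696, -45056], []), ([0, 0, 0,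
-23552, 156672, 695296, 475136, -196608], []), ([0, 0, 5120, -183296, -626688, -881664, -633856,
98304], []), ([0, 0, 75776, -230400, -1599488, -1661952, 368640], []), ([0, -7168, 312320,
1229824, 1477632, 1014784, -106496], []), ([0, -97280, 146432, 2099200, 2397184, -335872], []),
([3072, -295936, -1532928, -2543616, -756736, 57344], []), ([40960, -84992, -2099200, -1619968,
147456], []), ([109568, 916480, 3036160, 240640, -12288], []), ([40960, 1412096, 467968, -24576],
[]), ([-187392, -1809408, -18432], []), ([-409600, -33792], []), ([402432], [])], [([0, 0, 0, 0,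
0, 0, 0, 0, 4096, 8192], []), ([0, 0, 0, 0, 0, 0, -4096, 4096, 32768], []), ([0, 0, 0, 0, 1024, 0,
-19456, -6144, -45056], []), ([0, 0, 0, -2048, 12288, 20480, -43008, -135168], []), ([0, 0, 0,
-18432, 26624, 145408, 156672, 98304], []), ([0, 0, 8192, -69632, -32768, 368640, 196608], []),
([0, 0, 78848, -126976, -473088, -638976, -106496], []), ([0, -10240, 208896, 18432, -829440,
-106496], []), ([0, -106496, 329728, 1349632, 959488, 57344], []), ([4096, -258048, 217088,
606208], []), ([45056, -385024, -2292736, -622592, -12288], []), ([106496, -436224, -8192, 12288],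
[]), ([155648, 1818624, 147456], []), ([217088, -98304], []), ([-528384], [])], [([0, 0, 0, 0, 0,
0, 512, 1024], []), ([0, 0, 0, 0, -256, 256, 2560], []), ([0, 0, 0, 256, -1024, -3072, -6656],
[]), ([0, 0, 0, 2048, -1024, -13056], []), ([0, 0, -1024, 7680, 16896, 16896], []), ([0, 0, -5376,
6400, 23296], []), ([0, 1280, -19456, -57088, -20992], []), ([0, 5632, -20992, -16128], []),
([-512, 19968, 93184, 12800], []), ([-2048, 25600, 1792], []), ([-7168, -70400, -3072], []),
([-10240, 1536], []), ([19968], [])]], [[], [], [([0, 0, 0, 0, 0, -128, -256], []), ([0, 0, 0,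
-128, -384, -512], []), ([0, 0, 0, -384, 384, 2176], []), ([0, 0, 256, 1920, 4736], []), ([0, 0,
1024, 2048, -6528], []), ([0, -128, -2944, -13568], []), ([0, -896, -7040, 9088], []), ([0, 1664,
17280], []), ([256, 7040, -6016], []), ([-256, -10240], []), ([-2304, 1536], []), ([2304], [])],
[([], []), ([], []), ([0, 0, 0, 128, 128, -256], []), ([0, 0, 0, 128, -512], []), ([0, 0, -512,
-1152, 1408], []), ([0, 0, -512, 2432], []), ([0, 640, 3200, -2816], []), ([0, 640, -4096], []),
([-256, -3456, 2432], []), ([-256, 2944], []), ([1280, -768], []), ([-768], [])], [], [([0, 0, 0,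
0, 0, -512, -2560, -3072], []), ([0, 0, 0, -256, -1536, -6912, -10752], []), ([0, 0, 0, -768,
-1792, 2048, 17920], []), ([0, 0, 512, 6144, 27904, 51968], []), ([0, 0, 1536, 7168, 5376,
-41472], []), ([0, -256, -11776, -62464, -97536], []), ([0, -768, -11008, 10496, 47616], []), ([0,
11264, 89344, 88320], []), ([0, 10240, -44800, -27136], []), ([-4096, -68352, -38144], []),
([-4096, 41728, 6144], []), ([20480, 6144], []), ([-12288], [])], [([0, 0, 0, 0, 0, 0, 512, 1024],
[]), ([0, 0, 0, 0, -256, 256, 2560], []), ([0, 0, 0, 256, -1024, -3072, -6656], []), ([0, 0, 0,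
2048, -1024, -13056], []), ([0, 0, -1024, 7680, 16896, 16896], []), ([0, 0, -5376, 6400, 23296],
[]), ([0, 1280, -19456, -57088, -20992], []), ([0, 5632, -20992, -16128], []), ([-512, 19968,
93184, 12800], []), ([-2048, 25600, 1792], []), ([-7168, -70400, -3072], []), ([-10240, 1536],
[]), ([19968], [])], [([0, 0, 0, 0, 64, 128], []), ([0, 0, 0, 0, 128], []), ([0, 0, 0, -384,
-960], []), ([0, 0, 0, -768], []), ([0, 0, 832, 2816], []), ([0, 0, 1664], []), ([0, -768, -4032],
[]), ([0, -1536], []), ([256, 2816], []), ([512], []), ([-768], [])]]]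

/-- the last coefficient -/
def h8 : Tb := [([4, 8], []), ([8], []), ([-12], [])]

/-- coefficients -/
def G0 : List Tb := [[], [], [], [], [], [], [], [([0, 0, 0, 0, 1024, 6144, 12288, 8192], []), ([0, 0, 0, 0, 6144,
24576, 24576], []), ([0, 0, 0, -5120, -27648, -73728, -77824], []), ([0, 0, 0, -30720, -151552,
-196608], []), ([0, 0, 9216, 39936, 162816, 313344], []), ([0, 0, 55296, 364544, 645120], []),
([0, -7168, -15360, -150528, -693248], []), ([0, -43008, -430080, -1112064], []), ([2048, -9216,
27648, 910336], []), ([12288, 249856, 1062912], []), ([6144, 39936, -709632], []), ([-57344,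
-534528], []), ([-18432, 304128], []), ([110592], []), ([-55296], [])]]

/-- coefficients -/
def G1 : List Tb := [[([0, 0, 0, 0, 0, 0, 2048, 8192, 8192], []), ([0, 0, 0, 0, 0, -2048, -4096, -8192, -16384], []),
([0, 0, 0, 0, 0, -26624, -112640, -139264, -8192], []), ([0, 0, 0, 0, 12288, 10240, 24576,
155648], []), ([0, 0, 0, 0, 114688, 559104, 858112, 81920], []), ([0, 0, 0, -28672, 28672, 83968,
-643072], []), ([0, 0, 0, -233472, -1400832, -2742272, -354304], []), ([0, 0, 32768, -135168,
-520192, 1513472], []), ([0, 0, 247808, 1978368, 5152768, 866304], []), ([0, -18432, 192512,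
1036288, -2224128], []), ([0, -133120, -1603584, -5935104, -1310720], []), ([4096, -120832,
-1024000, 2093056], []), ([28672, 698368, 4134912, 1257472], []), ([28672, 509952, -1232896], []),
([-126976, -1603584, -747520], []), ([-102400, 415744], []), ([266240, 251904], []), ([-61440],
[]), ([-36864], [])], [([0, 0, 0, 0, 0, 0, -2048, -8192, -8192], []), ([0, 0, 0, 0, 0, 0, -12288,
-32768, -16384], []), ([0, 0, 0, 0, 0, 12288, 30720, 16384, -24576], []), ([0, 0, 0, 0, 0, 73728,
204800, 98304], []), ([0, 0, 0, 0, -28672, 4096, 157696, 253952], []), ([0, 0, 0, 0, -172032,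
-475136, -126976], []), ([0, 0, 0, 32768, -176128, -798720, -1136640], []), ([0, 0, 0, 196608,
442368, -450560], []), ([0, 0, -18432, 335872, 1609728, 2879488], []), ([0, 0, -110592, 32768,
1875968], []), ([0, 4096, -280576, -1720320, -4517888], []), ([0, 24576, -385024, -2981888], []),
([0, 110592, 1009664, 4497408], []), ([0, 278528, 2494464], []), ([-16384, -299008, -2775040],
[]), ([-65536, -1089536], []), ([32768, 970752], []), ([196608], []), ([-147456], [])], [], [],
[([0, 0, 0, 0, -512, -2048, -2048], []), ([0, 0, 0, 0, -3072, -8192, -4096], []), ([0, 0, 0, 2560,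
7680, 10240, 2048], []), ([0, 0, 0, 15360, 51200, 36864], []), ([0, 0, -4608, -5632, -11776,
-16384], []), ([0, 0, -27648, -124928, -134144], []), ([0, 3584, -8704, -18944, 53760], []), ([0,
21504, 149504, 252928], []), ([-1024, 13824, 55808, -92672], []), ([-6144, -88064, -261120], []),
([-5120, -46592, 88576], []), ([20480, 140288], []), ([13312, -44544], []), ([-30720], []),
([9216], [])], [], [], []]

/-- coefficients -/
def G2 : List Tb := [[([0, 0, 0, 0, 0, 0, -2048, -10240, -16384, -8192], []), ([0, 0, 0, 0, 0, 0, -8192, -26624,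
-24576, -8192], []), ([0, 0, 0, 0, 0, 12288, 65536, 118784, 57344], []), ([0, 0, 0, 0, 0, 45056,
169984, 167936, 81920], []), ([0, 0, 0, 0, -28672, -180224, -378880, -124928], []), ([0, 0, 0, 0,
-90112, -409600, -389120, -354304], []), ([0, 0, 0, 32768, 294912, 749568, -61440], []), ([0, 0,
0, 73728, 421888, 126976, 866304], []), ([0, 0, -18432, -329728, -1093632, 819200], []), ([0, 0,
-8192, -59392, 1056768, -1310720], []), ([0, 4096, 253952, 1216512, -1785856], []), ([0, -20480,
-247808, -2215936, 1257472], []), ([0, -118784, -935936, 2029568], []), ([8192, 200704, 2035712,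
-747520], []), ([24576, 421888, -1331200], []), ([-49152, -929792, 251904], []), ([-81920,
479232], []), ([172032, -36864], []), ([-73728], [])], [([0, 0, 0, 0, 0, 0, 0, -2048, -8192,
-8192], []), ([0, 0, 0, 0, 0, 0, -6144, -38912, -65536, -24576], []), ([0, 0, 0, 0, 0, 0, -18432,
-45056], []), ([0, 0, 0, 0, 0, 40960, 245760, 503808, 253952], []), ([0, 0, 0, 0, 0, 176128,
618496, 391168], []), ([0, 0, 0, 0, -110592, -610304, -1595392, -1136640], []), ([0, 0, 0, 0,
-520192, -2252800, -2025472], []), ([0, 0, 0, 155648, 745472, 2670592, 2879488], []), ([0, 0, 0,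
759808, 4128768, 4919296], []), ([0, 0, -120832, -432128, -2486272, -4517888], []), ([0, 0,
-600064, -4321280, -6860800], []), ([0, 49152, 57344, 1183744, 4497408], []), ([0, 245760,
2617344, 5756928], []), ([-8192, 49152, -153600, -2775040], []), ([-40960, -851968, -2836480],
[]), ([-16384, -81920, 970752], []), ([114688, 737280], []), ([24576, -147456], []), ([-73728],
[])], [], [], [([0, 0, 0, 0, 0, -512, -2048, -2048], []), ([0, 0, 0, 0, -512, -3584, -4096, 2048],
[]), ([0, 0, 0, 0, 0, 7168, 18432], []), ([0, 0, 0, 2560, 16896, 27648, -16384], []), ([0, 0, 0,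
8192, 4096, -64000], []), ([0, 0, -4608, -27136, -71168, 53760], []), ([0, 0, -19456, -49152,
106496], []), ([0, 3584, 15872, 85504, -92672], []), ([0, 16896, 81920, -79872], []), ([-1024, 0,
-44544, 88576], []), ([-5120, -56320, 7168], []), ([-2048, 3584, -44544], []), ([14336, 23040],
[]), ([3072, 9216], []), ([-9216], [])], [], [], []]

/-- coefficients -/
def G3 : List Tb := [[([0, 0, 0, 0, 0, 0, 0, -2048, -10240, -16384, -8192], []), ([0, 0, 0, 0, 0, 0, -6144, -38912,
-73728, -40960], []), ([0, 0, 0, 0, 0, 0, -10240, 2048, 94208, 81920], []), ([0, 0, 0, 0, 0,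
40960, 278528, 626688, 393216], []), ([0, 0, 0, 0, 0, 118784, 331776, -129024, -354304], []), ([0,
0, 0, 0, -110592, -839680, -2316288, -1636352], []), ([0, 0, 0, 0, -356352, -1421312, -280576,
866304], []), ([0, 0, 0, 155648, 1400832, 4915200, 3862528], []), ([0, 0, 0, 514048, 2766848,
1126400, -1310720], []), ([0, 0, -120832, -1415168, -6623232, -5664768], []), ([0, 0, -395264,
-2988032, -1425408, 1257472], []), ([0, 49152, 876544, 5861376, 5292032], []), ([0, 155648,
1843200, 665600, -747520], []), ([-8192, -311296, -3348480, -3078144], []), ([-24576, -606208,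
161792, 251904], []), ([49152, 1130496, 1019904], []), ([81920, -270336, -36864], []), ([-172032,
-147456], []), ([73728], [])], [([0, 0, 0, 0, 0, 0, 0, -2048, -14336, -32768, -24576], []), ([0,
0, 0, 0, 0, 0, 0, -20480, -90112, -98304], []), ([0, 0, 0, 0, 0, 0, 4096, 16384, 135168, 253952],
[]), ([0, 0, 0, 0, 0, 0, 98304, 589824, 909312], []), ([0, 0, 0, 0, 0, 28672, 299008, 219136,
-1136640], []), ([0, 0, 0, 0, 0, -106496, -1409024, -3600384], []), ([0, 0, 0, 0, -131072,
-1253376, -2461696, 2879488], []), ([0, 0, 0, 0, -212992, 1146880, 7962624], []), ([0, 0, 0,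
227328, 2230272, 6713344, -4517888], []), ([0, 0, 0, 667648, 1056768, -10739712], []), ([0, 0,
-200704, -2138112, -9662464, 4497408], []), ([0, 0, -704512, -3112960, 9019392], []), ([0, 90112,
1138688, 8263680, -2775040], []), ([0, 344064, 2801664, -4583424], []), ([-16384, -311296,
-4231168, 970752], []), ([-65536, -1179648, 1277952], []), ([32768, 1204224, -147456], []),
([196608, -147456], []), ([-147456], [])], [], [], [([0, 0, 0, 0, 0, 512, 2560, 4096, 2048], []),
([0, 0, 0, 0, 0, 1024, 2048], []), ([0, 0, 0, 0, -3584, -22016, -39936, -16384], []), ([0, 0, 0,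
0, -9216, -22528, 6144], []), ([0, 0, 0, 9728, 71168, 163328, 53760], []), ([0, 0, 0, 29696,
92160, -39936], []), ([0, 0, -12800, -111104, -358912, -92672], []), ([0, 0, -44032, -186368,
101376], []), ([0, 8192, 88064, 453120, 88576], []), ([0, 30720, 200704, -125952], []), ([-2048,
-32768, -326144, -44544], []), ([-8192, -110592, 76800], []), ([4096, 122880, 9216], []), ([24576,
-18432], []), ([-18432], [])], [], [], []]

/-- coefficients -/
def G4 : List Tb := [[([0, 0, 0, 0, 0, 2048, 10240, 12288, -8192, -16384], []), ([0, 0, 0, 0, 0, 26624, 110592,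
126976, 32768, 16384], []), ([0, 0, 0, 0, -12288, -6144, 38912, 98304, 188416], []), ([0, 0, 0, 0,
-159744, -772096, -1097728, -245760, -147456], []), ([0, 0, 0, 28672, -188416, -636928, -288768,
-880640], []), ([0, 0, 0, 372736, 2199552, 4110336, 716800, 561152], []), ([0, 0, -32768, 610304,
2179072, -157696, 2205696], []), ([0, 0, -425984, -3289088, -8638464, -899072, -1171456], []),
([0, 18432, -792576, -3555328, 2342912, -3248128], []), ([0, 239616, 2732032, 10960896, 12288,
1449984], []), ([-4096, 477184, 3119104, -5001216, 2871296], []), ([-53248, -1198080, -8355840,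
1372160, -1064960], []), ([-110592, -1423360, 5019648, -1470464], []), ([217088, 3528704,
-1708032, 430080], []), ([266240, -2508800, 387072], []), ([-634880, 903168, -73728], []),
([503808, -36864], []), ([-184320], [])], [([0, 0, 0, 0, 0, 0, 0, -8192, -32768, -32768], []),
([0, 0, 0, 0, 0, 4096, 12288, -24576, -49152, 32768], []), ([0, 0, 0, 0, 0, 57344, 249856, 458752,
442368], []), ([0, 0, 0, 0, -24576, 102400, 598016, 671744, -294912], []), ([0, 0, 0, 0, -344064,
-1368064, -2351104, -2351104], []), ([0, 0, 0, 57344, -884736, -3543040, -3477504, 1122304], []),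
([0, 0, 0, 802816, 3235840, 6234112, 6656000], []), ([0, 0, -65536, 2269184, 9674752, 9416704,
-2342912], []), ([0, 0, -917504, -3973120, -9699328, -11182080], []), ([0, 36864, -2707456,
-14368768, -14974976, 2899968], []), ([0, 516096, 2609152, 9256960, 11542528], []), ([-8192,
1560576, 12034048, 14524416, -2129920], []), ([-114688, -843776, -5365760, -7200768], []),
([-352256, -5361664, -8458240, 860160], []), ([98304, 1744896, 2494464], []), ([991232, 2715648,
-147456], []), ([-245760, -368640], []), ([-368640], [])], [([], []), ([0, 0, 0, 256, 1024, 1024],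
[]), ([0, 0, 0, 1024, 2048], []), ([0, 0, -1024, -4608, -7168], []), ([0, 0, -4096, -11264], []),
([0, 1280, 7168, 19712], []), ([0, 5120, 22528], []), ([-512, -4608, -26624], []), ([-2048,
-19456], []), ([1024, 17664], []), ([6144], []), ([-4608], [])], [([0, 0, 0, -256, -1024, -1024],
[]), ([0, 0, 0, -1024, -2048], []), ([0, 0, 1024, 4608, 7168], []), ([0, 0, 4096, 11264], []),
([0, -1280, -7168, -19712], []), ([0, -5120, -22528], []), ([512, 4608, 26624], []), ([2048,
19456], []), ([-1024, -17664], []), ([-6144], []), ([4608], [])], [], [], [], []]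

/-- coefficients -/
def G5 : List Tb := [[([0, 0, 0, 0, 0, 2048, 16384, 51200, 77824, 57344, 16384], []), ([0, 0, 0, 0, 0, 10240, 65536,
145408, 122880, 24576], []), ([0, 0, 0, 0, -12288, -59392, -139264, -307200, -409600, -147456],
[]), ([0, 0, 0, 0, -61440, -305152, -741376, -880640, -172032], []), ([0, 0, 0, 28672, -4096,
-456704, -532480, 1067008, 561152], []), ([0, 0, 0, 143360, 389120, 894976, 2678784, 473088], []),
([0, 0, -32768, 282624, 2527232, 5556224, -876544, -1171456], []), ([0, 0, -163840, 184320,
1634304, -4765696, -626688], []), ([0, 18432, -475136, -4548608, -14647296, -1347584, 1449984],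
[]), ([0, 92160, -819200, -5748736, 5992448, 356352], []), ([-4096, 317440, 4063232, 20070400,
3940352, -1064960], []), ([-20480, 661504, 6557696, -5947392, 24576], []), ([-77824, -1828864,
-15630336, -3979264, 430080], []), ([-176128, -3450880, 4415488, -116736], []), ([331776, 6580224,
1916928, -73728], []), ([708608, -2021376, 36864], []), ([-1167360, -368640], []), ([405504],
[])], [([0, 0, 0, 0, 0, 0, 0, 8192, 40960, 65536, 32768], []), ([0, 0, 0, 0, 0, 4096, 40960,
159744, 245760, 114688], []), ([0, 0, 0, 0, 0, 24576, 139264, 114688, -311296, -294912], []), ([0,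
0, 0, 0, -24576, -167936, -679936, -1482752, -933888], []), ([0, 0, 0, 0, -147456, -868352,
-1605632, 57344, 1122304], []), ([0, 0, 0, 57344, 106496, 397312, 2777088, 3190784], []), ([0, 0,
0, 344064, 1622016, 3923968, 2531328, -2342912], []), ([0, 0, -65536, 434176, 2351104, 708608,
-5939200], []), ([0, 0, -393216, -876544, -2236416, -7208960, 2899968], []), ([0, 36864, -876544,
-5369856, -10510336, 6512640], []), ([0, 221184, -679936, -4489216, 9601024, -2129920], []),
([-8192, 618496, 4874240, 17547264, -4210688], []), ([-49152, 950272, 8175616, -7020544, 860160],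
[]), ([-155648, -2068480, -14065664, 1486848], []), ([-294912, -5054464, 2727936, -147456], []),
([335872, 5738496, -221184], []), ([1130496, -442368], []), ([-958464], [])], [([0, 0, 0, 0, 256,
1024, 1024], []), ([0, 0, 0, 0, 1024, 2048], []), ([0, 0, 0, -1024, -4608, -7168], []), ([0, 0, 0,
-4096, -11264], []), ([0, 0, 1280, 7168, 19712], []), ([0, 0, 5120, 22528], []), ([0, -512, -4608,
-26624], []), ([0, -2048, -19456], []), ([0, 1024, 17664], []), ([0, 6144], []), ([0, -4608],
[])], [([], []), ([0, 0, 0, -256, -1024, -1024], []), ([0, 0, 0, -1024, -2048], []), ([0, 0, 1024,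
4608, 7168], []), ([0, 0, 4096, 11264], []), ([0, -1280, -7168, -19712], []), ([0, -5120, -22528],
[]), ([512, 4608, 26624], []), ([2048, 19456], []), ([-1024, -17664], []), ([-6144], []), ([4608],
[])], [], [], [], []]

/-- coefficients -/
def G6 : List Tb := [[([0, 0, 0, 0, 0, 2048, 14336, 36864, 40960, 16384], []), ([0, 0, 0, 0, 0, 6144, 30720, 49152,
24576], []), ([0, 0, 0, 0, -12288, -100352, -294912, -368640, -163840], []), ([0, 0, 0, 0, -36864,
-210944, -364544, -196608], []), ([0, 0, 0, 28672, 286720, 1013760, 1439744, 708608], []), ([0, 0,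
0, 86016, 589824, 1107968, 645120], []), ([0, 0, -32768, -430080, -1953792, -3192832, -1732608],
[]), ([0, 0, -98304, -864256, -1773568, -1099776], []), ([0, 18432, 358400, 2285568, 4399104,
2621440], []), ([0, 55296, 702464, 1585152, 983040], []), ([-4096, -157696, -1622016, -3854336,
-2514944], []), ([-12288, -301056, -757760, -331776], []), ([28672, 645120, 2095104, 1495040],
[]), ([53248, 157696, -141312], []), ([-110592, -645120, -503808], []), ([-4096, 153600], []),
([86016, 73728], []), ([-36864], [])], [([0, 0, 0, 0, 0, 0, 0, 4096, 16384, 16384], []), ([0, 0,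
0, 0, 0, 4096, 24576, 65536, 65536], []), ([0, 0, 0, 0, 0, 16384, 40960, -40960, -147456], []),
([0, 0, 0, 0, -24576, -159744, -475136, -557056], []), ([0, 0, 0, 0, -98304, -401408, -245760,
561152], []), ([0, 0, 0, 57344, 417792, 1454080, 2023424], []), ([0, 0, 0, 229376, 1245184,
1376256, -1171456], []), ([0, 0, -65536, -565248, -2465792, -4116480], []), ([0, 0, -262144,
-1929216, -2899968, 1449984], []), ([0, 36864, 417792, 2531328, 5152768], []), ([0, 147456,
1630208, 3268608, -1064960], []), ([-8192, -159744, -1589248, -4087808], []), ([-32768, -720896,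
-2080768, 430080], []), ([24576, 569344, 2023424], []), ([131072, 704512, -73728], []), ([-90112,
-577536], []), ([-98304], []), ([73728], [])], [], [], [], [([0, 0, 0, 0, -512, -2048, -2048],
[]), ([0, 0, 0, -512, -4096, -6144], []), ([0, 0, 0, 512, 7168, 16384], []), ([0, 0, 2048, 19456,
40960], []), ([0, 0, 3584, -1024, -53760], []), ([0, -2560, -32768, -107008], []), ([0, -6656,
-21504, 92672], []), ([1024, 23552, 137216], []), ([3072, 27648, -88576], []), ([-6144, -86528],
[]), ([-10240, 44544], []), ([21504], []), ([-9216], [])], [([0, 0, 0, 512, 2560, 4096, 2048],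
[]), ([0, 0, 0, 2048, 6144, 4096], []), ([0, 0, -2048, -11776, -25600, -16384], []), ([0, 0,
-8192, -32768, -26624], []), ([0, 2560, 18944, 62976, 53760], []), ([0, 10240, 63488, 67584], []),
([-1024, -12800, -76800, -92672], []), ([-4096, -53248, -83968], []), ([3072, 46592, 88576], []),
([16384, 51200], []), ([-11264, -44544], []), ([-12288], []), ([9216], [])], []]

/-- coefficients -/
def G7 : List Tb := [[([0, 0, 0, 0, 0, -2048, -12288, -24576, -16384], []), ([0, 0, 0, 0, 0, -6144, -18432, 0, 24576],
[]), ([0, 0, 0, 0, 12288, 96256, 264192, 245760, 8192], []), ([0, 0, 0, 0, 36864, 161792, 61440,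
-245760], []), ([0, 0, 0, -28672, -307200, -1148928, -1433600, -73728], []), ([0, 0, 0, -86016,
-565248, -452608, 1087488], []), ([0, 0, 32768, 512000, 2654208, 4458496, 280576], []), ([0, 0,
98304, 1011712, 1363968, -2783232], []), ([0, -18432, -471040, -3551232, -8269824, -585728], []),
([0, -55296, -985088, -2158592, 4497408], []), ([4096, 227328, 2770944, 9482240, 724992], []),
([12288, 497664, 1896448, -4681728], []), ([-45056, -1173504, -6610944, -532480], []), ([-102400,
-878592, 3053568], []), ([208896, 2574336, 215040], []), ([167936, -1136640], []), ([-430080,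
-36864], []), ([184320], [])], [([0, 0, 0, 0, 0, 0, 0, -4096, -16384, -16384], []), ([0, 0, 0, 0,
0, -4096, -20480, -49152, -49152], []), ([0, 0, 0, 0, 0, -16384, -12288, 122880, 196608], []),
([0, 0, 0, 0, 24576, 151552, 483328, 573440], []), ([0, 0, 0, 0, 98304, 294912, -188416,
-1003520], []), ([0, 0, 0, -57344, -458752, -1896448, -2789376], []), ([0, 0, 0, -229376,
-1236992, -770048, 2854912], []), ([0, 0, 65536, 729088, 3891200, 7450624], []), ([0, 0, 262144,
2387968, 3571712, -4964352], []), ([0, -36864, -643072, -4546560, -12025856], []), ([0, -147456,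
-2420736, -6201344, 5414912], []), ([8192, 299008, 3039232, 12066816], []), ([32768, 1253376,
5578752, -3624960], []), ([-57344, -1077248, -7376896], []), ([-262144, -2588672, 1363968], []),
([155648, 2519040], []), ([491520, -221184], []), ([-368640], [])], [], [], [], [([0, 0, 0, 0,
512, 2048, 2048], []), ([0, 0, 0, 0, 2048, 4096], []), ([0, 0, 0, -3072, -13312, -18432], []),
([0, 0, 0, -12288, -30720], []), ([0, 0, 6656, 32768, 68096], []), ([0, 0, 26624, 90112], []),
([0, -6144, -37888, -132096], []), ([0, -24576, -129024], []), ([2048, 20480, 141824], []),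
([8192, 90112], []), ([-4096, -79872], []), ([-24576], []), ([18432], [])], [([0, 0, 0, 0, 512,
2048, 2048], []), ([0, 0, 0, 512, 4096, 6144], []), ([0, 0, 0, -512, -7168, -16384], []), ([0, 0,
-2048, -19456, -40960], []), ([0, 0, -3584, 1024, 53760], []), ([0, 2560, 32768, 107008], []),
([0, 6656, 21504, -92672], []), ([-1024, -23552, -137216], []), ([-3072, -27648, 88576], []),
([6144, 86528], []), ([10240, -44544], []), ([-21504], []), ([9216], [])], []]

/-- coefficients -/
def G8 : List Tb := [[([0, 0, 0, 0, 0, -2048, -47104, -219136, -413696, -376832, -180224, -32768], []), ([0, 0, 0, 0,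
0, -24576, -323584, -1067008, -1458176, -925696, -163840], []), ([0, 0, 0, 0, 12288, 225280,
909312, 1683456, 1662976, 1277952, 262144], []), ([0, 0, 0, 0, 114688, 1536000, 5441536, 8433664,
6979584, 1277952], []), ([0, 0, 0, -28672, -413696, -1904640, -3078144, -890880, -3985408,
-892928], []), ([0, 0, 0, -212992, -2293760, -8552448, -14737408, -22136832, -4284416], []), ([0,
0, 32768, 344064, 4923392, 10072064, -8630272, 7356416, 1679360], []), ([0, 0, 196608, 286720,
-1224704, -8916992, 37406720, 8003584], []), ([0, -18432, -96256, -11163648, -34791424, 26179584,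
-9191424, -1884160], []), ([0, -90112, 2396160, 18937856, 73293824, -34234368, -8994816], []),
([4096, -28672, 13959168, 64253952, -39800832, 8273920, 1261568], []), ([16384, -2215936,
-23156736, -122777600, 13160448, 6078464], []), ([16384, -8519680, -62330880, 39720960, -5246976,
-466944], []), ([614400, 11980800, 102522880, 3258368, -2285568], []), ([2015232, 30699520,
-26988544, 2064384, 73728], []), ([-2359296, -44249088, -4724736, 368640], []), ([-6094848,
11225088, -368640], []), ([7888896, 1216512], []), ([-2101248], [])], [([0, 0, 0, 0, 0, 0, 0,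
-65536, -319488, -524288, -360448, -131072], []), ([0, 0, 0, 0, 0, 0, -49152, -704512, -2031616,
-1966080, -655360], []), ([0, 0, 0, 0, 0, -40960, -65536, 0, 802816, 1540096, 1048576], []), ([0,
0, 0, 0, 0, -16384, 2703360, 10878976, 12943360, 4849664], []), ([0, 0, 0, 0, 114688, 237568,
2932736, 4620288, -909312, -3571712], []), ([0, 0, 0, 0, 655360, -3637248, -24395776, -35241984,
-15302656], []), ([0, 0, 0, -49152, 3162112, 2957312, -8290304, -6520832, 6717440], []), ([0, 0,
0, -1474560, 5079040, 36356096, 48939008, 26705920], []), ([0, 0, -131072, -11419648, -35692544,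
-27238400, 17580032, -7536640], []), ([0, 0, 1392640, -13352960, -55705600, -31326208, -27852800],
[]), ([0, 155648, 15269888, 72433664, 108527616, -20643840, 5046272], []), ([0, -606208, 20201472,
80183296, -2162688, 17367040], []), ([-49152, -9265152, -67764224, -158547968, 13049856,
-1867776], []), ([98304, -13762560, -75513856, 16924672, -5996544], []), ([2146304, 31170560,
120586240, -4325376, 294912], []), ([3473408, 37994496, -10174464, 884736], []), ([-5718016,
-47751168, 589824], []), ([-7766016, 2064384], []), ([7815168], [])], [([0, 0, 0, 0, -256, -1792,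
-3072, -1024], []), ([0, 0, 0, -256, -5376, -14080, -6656], []), ([0, 0, 0, 256, -2048, 9472,
6656], []), ([0, 0, 1024, 24576, 77312, 43776], []), ([0, 0, 1792, 34048, 5376, -16896], []), ([0,
-1280, -39168, -163328, -113408], []), ([0, -3328, -67072, -45056, 20992], []), ([512, 26112,
168960, 145152], []), ([1536, 49152, 49920, -12800], []), ([-6144, -86784, -91904], []), ([-12288,
-15104, 3072], []), ([17920, 23040], []), ([-1536], [])], [([0, 0, 0, 256, 1024, 768, 0, 1024],
[]), ([0, 0, 0, 1024, -1280, -7936, -512], []), ([0, 0, -1024, -2816, -2560, 12032, -6656], []),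
([0, 0, -4096, 11264, 67072, 4864], []), ([0, 1280, 0, 2560, -81408, 16896], []), ([0, 5120,
-30976, -212736, -16128], []), ([-512, 4352, -2048, 215552, -20992], []), ([-2048, 33280, 319488,
24320], []), ([-2560, 2816, -279552, 12800], []), ([-12288, -229376, -17152], []), ([-1536,
177920, -3072], []), ([63488, 4608], []), ([-44544], [])], [([0, 0, 0, 0, 0, -4096, -21504,
-36864, -20480], []), ([0, 0, 0, 0, -4096, -41984, -106496, -77824], []), ([0, 0, 0, 0, -16384,
-35840, 88064, 163840], []), ([0, 0, 0, 20480, 136192, 485376, 561152], []), ([0, 0, 0, 147456,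
613376, 468992, -537600], []), ([0, 0, -36864, -9216, -514048, -1643520], []), ([0, 0, -303104,
-1590272, -2390016, 926720], []), ([0, 28672, -369664, -722944, 2507776], []), ([0, 249856,
1771520, 4397056, -885760], []), ([-8192, 432128, 1996800, -2106368], []), ([-73728, -917504,
-4087808, 445440], []), ([-147456, -1556480, 924672], []), ([180224, 1929216, -92160], []),
([417792, -165888], []), ([-368640], [])], [([0, 0, 0, 0, 0, -1536, -6144, -6144], []), ([0, 0, 0,
-512, -3072, -12288, -16384], []), ([0, 0, 0, -2048, -512, 25600, 49152], []), ([0, 0, 2048,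
15872, 73728, 118784], []), ([0, 0, 8192, 35328, -5120, -161280], []), ([0, -2560, -29696,
-169472, -353280], []), ([0, -10240, -95744, -132096, 278016], []), ([1024, 24064, 186368,
555520], []), ([4096, 95232, 269312, -265728], []), ([-7168, -97792, -490496], []), ([-32768,
-212992, 133632], []), ([19456, 231936], []), ([61440, -27648], []), ([-46080], [])], [([0, 0, 0,
512, 3072, 5632, 2048, -2048], []), ([0, 0, 0, 2048, 6144, -2048, -12288], []), ([0, 0, -2048,
-15872, -48640, -44032, 16384], []), ([0, 0, -8192, -38912, -10240, 92160], []), ([0, 2560, 29696,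
150528, 233472, -53760], []), ([0, 10240, 88064, 90112, -282624], []), ([-1024, -24064, -213504,
-550400, 92672], []), ([-4096, -83968, -194560, 454656], []), ([7168, 141824, 661504, -88576],
[]), ([28672, 169984, -405504], []), ([-35840, -397824, 44544], []), ([-53248, 190464], []),
([95232, -9216], []), ([-36864], [])], [([0, 0, 0, 0, 0, -6144, -38912, -86016, -73728, -16384],
[]), ([0, 0, 0, 0, -2048, -51200, -194560, -229376, -57344], []), ([0, 0, 0, 0, 22528, 112640,
344064, 483328, 131072], []), ([0, 0, 0, 10240, 245760, 1034240, 1462272, 409600], []), ([0, 0, 0,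
-14336, 26624, -284672, -1243136, -430080], []), ([0, 0, -18432, -409600, -2048000, -3586048,
-1185792], []), ([0, 0, -30720, -301056, -296960, 1542144, 741376], []), ([0, 14336, 266240,
1863680, 4038656, 1783808], []), ([0, 45056, 200704, 104448, -821248, -708608], []), ([-4096,
-30720, -727040, -1523712, -1472512], []), ([-16384, 65536, 960512, -59392, 356352], []),
([-20480, 51200, -917504, 632832], []), ([-65536, -1085440, 245760, -73728], []), ([20480,
1013760, -110592], []), ([344064, -73728], []), ([-258048], [])]]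


end Pool.Agent.GSK4
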